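import Pool.Agent.Helper29.LP.Main

/-!
# All ranges together
-/

set_option autoImplicit false

namespace Pool.Agent.Helper29.LP

open Finset MvPolynomial
open Pool.Agent.Helper29.LN Pool.Agent.Helper29.LG

lemma lt_of_longRange {r s B T : ℕ} (hs : 1 ≤ s) (h : LongRange r s B T) : T < (8 * B) ^ s := by
  obtain ⟨m, h1, h2, -, h3⟩ := h
  have hB : 1 ≤ B := by
    by_contra hB
    have : B = 0 := by omega
    rw [this, Nat.mul_zero, zero_pow (by omega)] at h3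
    omega
  have h4 : 1 ≤ s ^ m := Nat.one_le_pow _ _ hs
  calc T ≤ T ^ 2 := Nat.le_self_pow two_ne_zero T
    _ ≤ s ^ m * T ^ 2 := Nat.le_mul_of_pos_left _ (by omega)
    _ < (8 * B) ^ m := h3
    _ ≤ (8 * B) ^ s := Nat.pow_le_pow_right (by omega) h2.le

section

variable {R : Type} [CommRing R] {r c k s d : ℕ}

open Classical in
theorem all1 [IsDomain R] (b : Module.Basis (Fin d) ℤ R)
    {h : Fin c → MvPolynomial (Fin (r + 4)) R}
    {g : Fin k → MvPolynomial (Fin (r + 4)) R} {δ : Fin c → ℕ}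
    (hh : ∀ i, (h i).IsHomogeneous (δ i)) {e : ℕ} (hg : ∀ i, (g i).IsHomogeneous e)
    (hs : 1 ≤ s) {C₀ : ℝ}
    (hW : ∀ p : ℕ, p.Prime → ∀ φ : R →+* ZMod p,
      |points φ (Set.range h) - (p : ℝ) ^ 3| ≤ C₀ * (p : ℝ) ^ 2)
    (hZ : ∀ p : ℕ, p.Prime → ∀ φ : R →+* ZMod p,
      points φ (Set.range h ∪ Set.range g) ≤ C₀ * p)
    {ψ : R →+* ℂ} (hψ : Function.Injective ψ)
    {a₀ : Fin k × Mono (r + 4) s → R} (hS : SmoothSection ψ h (form g a₀)) :
    ∃ C : ℝ, ∀ w : ∀ p : ℕ, (R →+* ZMod p) → ℝ, (∀ p φ, |w p φ| ≤ 1) →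
      ∀ T₀ B : ℕ, 2 ≤ T₀ →
      (((box (r + 4) k s d B).filter fun a => ∃ T : ℕ, T₀ ≤ T ∧
        (T ^ 2 ≤ B ∨ LongRange r s B T) ∧
        Real.log T ^ 3 / Real.sqrt T <
          |average w T h (form g (coord b a)) - expectAverage w T h g|).card : ℝ) ≤
        C / Real.log T₀ * (box (r + 4) k s d B).card := by
  obtain ⟨C, B₀, hC⟩ := main_all (s := s) b hh hg hs hW hZ hψ hS
  obtain ⟨M, hM⟩ : ∃ M : ℕ, M = (8 * B₀) ^ s + 2 := ⟨_, rfl⟩
  have hM0 : (1 : ℝ) < M := by exact_mod_cast (by omega : 1 < M)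
  have hlM : 0 < Real.log M := Real.log_pos hM0
  refine ⟨|C| + Real.log M, fun w hw T₀ B hT₀ => ?_⟩
  have hT0 : (2 : ℝ) ≤ T₀ := by exact_mod_cast hT₀
  have hlT : 0 < Real.log T₀ := Real.log_pos (by linarith)
  have hX0 : (0 : ℝ) ≤ (box (r + 4) k s d B).card := Nat.cast_nonneg _
  by_cases hcase : B < B₀ ∧ T₀ ≤ M
  · obtain ⟨-, h2⟩ := hcase
    have h3 : (((box (r + 4) k s d B).filter fun a => ∃ T : ℕ, T₀ ≤ T ∧
        (T ^ 2 ≤ B ∨ LongRange r s B T) ∧
        Real.log T ^ 3 / Real.sqrt T <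
          |average w T h (form g (coord b a)) - expectAverage w T h g|).card : ℝ) ≤
        (box (r + 4) k s d B).card := by exact_mod_cast Finset.card_filter_le _ _
    refine h3.trans ?_
    have h4 : 1 ≤ (|C| + Real.log M) / Real.log T₀ := by
      rw [le_div_iff₀ hlT, one_mul]
      have h5 : Real.log T₀ ≤ Real.log M :=
        Real.log_le_log (by linarith) (by exact_mod_cast h2)
      have h6 := abs_nonneg C
      linarith
    nlinarith
  · have h1 := hC w hw T₀ B hT₀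
    have hsub : ((box (r + 4) k s d B).filter fun a => ∃ T : ℕ, T₀ ≤ T ∧
        (T ^ 2 ≤ B ∨ LongRange r s B T) ∧
        Real.log T ^ 3 / Real.sqrt T <
          |average w T h (form g (coord b a)) - expectAverage w T h g|) ⊆
        ((box (r + 4) k s d B).filter fun a => ∃ T : ℕ, T₀ ≤ T ∧
        (T ^ 2 ≤ B ∨ (B₀ ≤ B ∧ LongRange r s B T)) ∧
        Real.log T ^ 3 / Real.sqrt T <
          |average w T h (form g (coord b a)) - expectAverage w T h g|) := by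
      intro a ha
      obtain ⟨ha1, T, h3, h4, h5⟩ := Finset.mem_filter.1 ha
      refine Finset.mem_filter.2 ⟨ha1, T, h3, ?_, h5⟩
      rcases h4 with h4 | h4
      · exact Or.inl h4
      · right
        refine ⟨?_, h4⟩
        by_contra hB
        apply hcase
        refine ⟨by omega, ?_⟩
        have h6 := lt_of_longRange hs h4
        have h7 : (8 * B) ^ s ≤ (8 * B₀) ^ s := Nat.pow_le_pow_left (by omega) s
        omega
    refine (Nat.cast_le.2 (Finset.card_le_card hsub)).trans (h1.trans ?_)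
    apply mul_le_mul_of_nonneg_right _ hX0
    apply div_le_div_of_nonneg_right _ hlT.le
    have := le_abs_self C
    linarith

open Classical in
theorem all2 [IsDomain R] (b : Module.Basis (Fin d) ℤ R)
    {h : Fin c → MvPolynomial (Fin (r + 4)) R}
    {g : Fin k → MvPolynomial (Fin (r + 4)) R} {δ : Fin c → ℕ}
    (hh : ∀ i, (h i).IsHomogeneous (δ i)) {e : ℕ} (hg : ∀ i, (g i).IsHomogeneous e)
    (hs : 1 ≤ s) {C₀ : ℝ} (hC : 0 ≤ C₀)
    (hW : ∀ p : ℕ, p.Prime → ∀ φ : R →+* ZMod p,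
      |points φ (Set.range h) - (p : ℝ) ^ 3| ≤ C₀ * (p : ℝ) ^ 2)
    (hZ : ∀ p : ℕ, p.Prime → ∀ φ : R →+* ZMod p,
      points φ (Set.range h ∪ Set.range g) ≤ C₀ * p)
    {ψ : R →+* ℂ} (hψ : Function.Injective ψ)
    {a₀ : Fin k × Mono (r + 4) s → R} (hS : SmoothSection ψ h (form g a₀))
    {κ : ℝ} (hκ0 : 0 ≤ κ) (hκ : κ < 1 / 2) :
    ∃ C c' : ℝ, 0 ≤ C ∧ 0 < c' ∧
      ∀ w : ∀ p : ℕ, (R →+* ZMod p) → ℝ, (∀ p φ, |w p φ| ≤ 1) →
      ∀ T₀ B : ℕ, 2 ≤ T₀ →
      (((box (r + 4) k s d B).filter fun a => ∃ T : ℕ, T₀ ≤ T ∧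
        (T ^ 2 ≤ B ∨ LongRange r s B T) ∧ (T : ℝ) ^ (-κ) <
          |average w T h (form g (coord b a)) - expectAverage w T h g|).card : ℝ) ≤
        C * (T₀ : ℝ) ^ (-c') * (box (r + 4) k s d B).card := by
  obtain ⟨A, CF, hf⟩ := fam (s := s) (C₀ := C₀) b hh hg hs hC hW hZ hψ hS
  obtain ⟨C1, hC10, hC1⟩ := mid (Fintype.card ((Fin k × Mono (r + 4) s) × Fin d)) A CF hκ0 hκ
  obtain ⟨C2, B₀, hC20, hC2⟩ := long_all (s := s) b hh hg hs hC hW hZ hψ hS hκ0 hκ
  obtain ⟨ω, hω⟩ : ∃ ω, ω = 1 / 2 - κ := ⟨_, rfl⟩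
  have hω0 : 0 < ω := by linarith
  have hs0 : (0 : ℝ) < s := by exact_mod_cast hs
  have hs1 : (1 : ℝ) ≤ s := by exact_mod_cast hs
  obtain ⟨c', hc'⟩ : ∃ c', c' = ω / 4 / s := ⟨_, rfl⟩
  have hc0 : 0 < c' := by rw [hc']; positivity
  have hc1 : c' ≤ (1 - 2 * κ) / 2 := by
    have h1 : c' ≤ ω / 4 := by rw [hc']; exact div_le_self (by positivity) hs1
    linarith
  obtain ⟨M, hM⟩ : ∃ M : ℝ, M = (8 * |B₀|) ^ s := ⟨_, rfl⟩
  have hM0 : 0 ≤ M := by rw [hM]; positivity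
  refine ⟨C1 + C2 * (8 : ℝ) ^ (ω / 4) + M ^ c', c', by positivity, hc0, fun w hw T₀ B hT₀ => ?_⟩
  have hT0 : (2 : ℝ) ≤ T₀ := by exact_mod_cast hT₀
  have hT0' : (0 : ℝ) < T₀ := by linarith
  have hT1 : (1 : ℝ) ≤ T₀ := by linarith
  have hX0 : (0 : ℝ) ≤ (box (r + 4) k s d B).card := Nat.cast_nonneg _
  have hTc : 0 ≤ (T₀ : ℝ) ^ (-c') := Real.rpow_nonneg hT0'.le _
  -- the range of the squares
  have h1 : (((box (r + 4) k s d B).filter fun a => ∃ T : ℕ, T₀ ≤ T ∧ T ^ 2 ≤ B ∧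
        (T : ℝ) ^ (-κ) <
          |average w T h (form g (coord b a)) - expectAverage w T h g|).card : ℝ) ≤
        C1 * (T₀ : ℝ) ^ (-c') * (box (r + 4) k s d B).card := by
    have h2 := hC1 ((Fin k × Mono (r + 4) s) × Fin d) rfl _ (hf w hw) T₀ B hT₀
    simp_rw [average_sub b]
    refine le_trans h2 ?_
    apply mul_le_mul_of_nonneg_right _ hX0
    apply mul_le_mul_of_nonneg_left _ hC10
    exact Real.rpow_le_rpow_of_exponent_le hT1 (by linarith)
  -- the long range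
  have h2 : (((box (r + 4) k s d B).filter fun a => ∃ T : ℕ, T₀ ≤ T ∧ B < T ^ 2 ∧
        LongRange r s B T ∧ (T : ℝ) ^ (-κ) <
          |average w T h (form g (coord b a)) - expectAverage w T h g|).card : ℝ) ≤
        (C2 * (8 : ℝ) ^ (ω / 4) + M ^ c') * (T₀ : ℝ) ^ (-c') * (box (r + 4) k s d B).card := by
    by_cases hT : T₀ < (8 * B) ^ s
    swap
    · have : ((box (r + 4) k s d B).filter fun a => ∃ T : ℕ, T₀ ≤ T ∧ B < T ^ 2 ∧
        LongRange r s B T ∧ (T : ℝ) ^ (-κ) <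
          |average w T h (form g (coord b a)) - expectAverage w T h g|) = ∅ := by
        rw [Finset.filter_eq_empty_iff]
        rintro a _ ⟨T, h3, _, h4, _⟩
        have := lt_of_longRange hs h4
        omega
      rw [this, Finset.card_empty, Nat.cast_zero]
      positivity
    have hTR : (T₀ : ℝ) < (8 * (B : ℝ)) ^ s := by exact_mod_cast hT
    have hB1 : 1 ≤ B := by
      by_contra hB
      have : B = 0 := by omega
      rw [this, Nat.mul_zero, zero_pow (by omega)] at hT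
      omega
    have hB0 : (0 : ℝ) < B := by exact_mod_cast hB1
    by_cases hB : B₀ ≤ B
    · have h3 := hC2 w hw B hB
      have hsub : ((box (r + 4) k s d B).filter fun a => ∃ T : ℕ, T₀ ≤ T ∧ B < T ^ 2 ∧
          LongRange r s B T ∧ (T : ℝ) ^ (-κ) <
          |average w T h (form g (coord b a)) - expectAverage w T h g|) ⊆
          ((box (r + 4) k s d B).filter fun a => ∃ T : ℕ, B < T ^ 2 ∧
          LongRange r s B T ∧ (T : ℝ) ^ (-κ) <
          |average w T h (form g (coord b a)) - expectAverage w T h g|) := by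
        intro a ha
        obtain ⟨ha1, T, _, h4⟩ := Finset.mem_filter.1 ha
        exact Finset.mem_filter.2 ⟨ha1, T, h4⟩
      refine (Nat.cast_le.2 (Finset.card_le_card hsub)).trans (h3.trans ?_)
      apply mul_le_mul_of_nonneg_right _ hX0
      rw [← hω]
      have h4 : (B : ℝ) ^ (-(ω / 4)) ≤ (8 : ℝ) ^ (ω / 4) * (T₀ : ℝ) ^ (-c') := by
        rw [Real.rpow_neg hB0.le, Real.rpow_neg hT0'.le, ← div_eq_mul_inv,
          le_div_iff₀ (Real.rpow_pos_of_pos hT0' _), inv_mul_le_iff₀ (Real.rpow_pos_of_pos hB0 _),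
          ← Real.mul_rpow hB0.le (by norm_num)]
        calc (T₀ : ℝ) ^ c' ≤ ((8 * (B : ℝ)) ^ s) ^ c' :=
              Real.rpow_le_rpow hT0'.le hTR.le hc0.le
          _ = (B * 8 : ℝ) ^ (ω / 4) := by
              rw [← Real.rpow_natCast, ← Real.rpow_mul (by positivity), mul_comm (8 : ℝ), hc']
              congr 1
              field_simp
      calc C2 * (B : ℝ) ^ (-(ω / 4)) ≤ C2 * ((8 : ℝ) ^ (ω / 4) * (T₀ : ℝ) ^ (-c')) :=
            mul_le_mul_of_nonneg_left h4 hC20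
        _ = C2 * (8 : ℝ) ^ (ω / 4) * (T₀ : ℝ) ^ (-c') := by ring
        _ ≤ _ := by
            apply mul_le_mul_of_nonneg_right _ hTc
            have : 0 ≤ M ^ c' := by positivity
            linarith
    · have h3 : (((box (r + 4) k s d B).filter fun a => ∃ T : ℕ, T₀ ≤ T ∧ B < T ^ 2 ∧
          LongRange r s B T ∧ (T : ℝ) ^ (-κ) <
          |average w T h (form g (coord b a)) - expectAverage w T h g|).card : ℝ) ≤
          (box (r + 4) k s d B).card := by exact_mod_cast Finset.card_filter_le _ _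
      refine h3.trans ?_
      have h4 : (T₀ : ℝ) ≤ M := by
        rw [hM]
        refine hTR.le.trans (pow_le_pow_left₀ (by positivity) ?_ s)
        have h5 := le_abs_self B₀
        push Not at hB
        linarith
      have h5 : 1 ≤ M ^ c' * (T₀ : ℝ) ^ (-c') := by
        rw [Real.rpow_neg hT0'.le, ← div_eq_mul_inv, le_div_iff₀ (Real.rpow_pos_of_pos hT0' _),
          one_mul]
        exact Real.rpow_le_rpow hT0'.le h4 hc0.le
      have h6 : 1 ≤ (C2 * (8 : ℝ) ^ (ω / 4) + M ^ c') * (T₀ : ℝ) ^ (-c') := by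
        have h7 : 0 ≤ C2 * (8 : ℝ) ^ (ω / 4) * (T₀ : ℝ) ^ (-c') := by positivity
        linarith
      nlinarith
  have hsub : ((box (r + 4) k s d B).filter fun a => ∃ T : ℕ, T₀ ≤ T ∧
        (T ^ 2 ≤ B ∨ LongRange r s B T) ∧ (T : ℝ) ^ (-κ) <
          |average w T h (form g (coord b a)) - expectAverage w T h g|) ⊆
        ((box (r + 4) k s d B).filter fun a => ∃ T : ℕ, T₀ ≤ T ∧ T ^ 2 ≤ B ∧ (T : ℝ) ^ (-κ) <
          |average w T h (form g (coord b a)) - expectAverage w T h g|) ∪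
        ((box (r + 4) k s d B).filter fun a => ∃ T : ℕ, T₀ ≤ T ∧ B < T ^ 2 ∧
        LongRange r s B T ∧ (T : ℝ) ^ (-κ) <
          |average w T h (form g (coord b a)) - expectAverage w T h g|) := by
    intro a ha
    obtain ⟨ha1, T, h3, h4, h5⟩ := Finset.mem_filter.1 ha
    rw [Finset.mem_union]
    by_cases h6 : T ^ 2 ≤ B
    · exact Or.inl (Finset.mem_filter.2 ⟨ha1, T, h3, h6, h5⟩)
    · refine Or.inr (Finset.mem_filter.2 ⟨ha1, T, h3, not_le.1 h6, ?_, h5⟩)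
      rcases h4 with h4 | h4
      · exact absurd h4 h6
      · exact h4
  have h3 := (Finset.card_le_card hsub).trans (Finset.card_union_le _ _)
  refine (Nat.cast_le.2 h3).trans ?_
  push_cast
  refine (add_le_add h1 h2).trans (le_of_eq ?_)
  ring

/-- The terms are bounded. -/
lemma tt_bound (b : Module.Basis (Fin d) ℤ R)
    {h : Fin c → MvPolynomial (Fin (r + 4)) R}
    {g : Fin k → MvPolynomial (Fin (r + 4)) R} {C₀ : ℝ} (hC : 0 ≤ C₀)
    (hW : ∀ p : ℕ, p.Prime → ∀ φ : R →+* ZMod p,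
      |points φ (Set.range h) - (p : ℝ) ^ 3| ≤ C₀ * (p : ℝ) ^ 2)
    (hZ : ∀ p : ℕ, p.Prime → ∀ φ : R →+* ZMod p,
      points φ (Set.range h ∪ Set.range g) ≤ C₀ * p)
    (hD : ∀ p : ℕ, p.Prime → ∀ (φ : R →+* ZMod p) (a : Fin k × Mono (r + 4) s → R),
      Good φ h (form g a) → |trace φ h (form g a)| ≤ C₀ * p)
    {w : ∀ p : ℕ, (R →+* ZMod p) → ℝ} (hw : ∀ p φ, |w p φ| ≤ 1) {p : ℕ} (hp : p.Prime)
    (a : (Fin k × Mono (r + 4) s) × Fin d → ℤ) :
    |tt w b h g p a| ≤ d * (3 * C₀ + 1) := by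
  classical
  have hpf : Fact p.Prime := ⟨hp⟩
  have hp0 : (0 : ℝ) < p := by exact_mod_cast hp.pos
  have hfin : Finite (R →+* ZMod p) := hom_finite b
  have hft := Fintype.ofFinite (R →+* ZMod p)
  have hcard : (Fintype.card (R →+* ZMod p) : ℝ) ≤ d := by exact_mod_cast card_hom_le b
  have h1 : ∀ φ : R →+* ZMod p, |t1 φ h g (coord b a)| ≤ 3 * C₀ + 1 := by
    intro φ
    have h2 := expect_abs h g φ hC (hW p hp φ) (hZ p hp φ)
    unfold t1
    by_cases hgd : Good φ h (form g (coord b a))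
    · rw [if_pos hgd]
      have h3 : |trace φ h (form g (coord b a)) / p| ≤ C₀ := by
        rw [abs_div, abs_of_pos hp0, div_le_iff₀ hp0]
        exact hD p hp φ _ hgd
      have h4 := abs_sub (trace φ h (form g (coord b a)) / p) (expect φ h g)
      linarith
    · rw [if_neg hgd, abs_neg]
      linarith
  unfold tt
  rw [finsum_eq_sum_of_fintype]
  refine (Finset.abs_sum_le_sum_abs _ _).trans ?_
  have h2 : ∀ φ ∈ (Finset.univ : Finset (R →+* ZMod p)),
      |w p φ * t1 φ h g (coord b a)| ≤ 3 * C₀ + 1 := by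
    intro φ _
    rw [abs_mul]
    have h3 := mul_le_mul (hw p φ) (h1 φ) (abs_nonneg _) zero_le_one
    linarith
  refine (Finset.sum_le_sum h2).trans ?_
  rw [Finset.sum_const, Finset.card_univ, nsmul_eq_mul]
  exact mul_le_mul_of_nonneg_right hcard (by positivity)

open Classical in
theorem all3 [IsDomain R] (b : Module.Basis (Fin d) ℤ R)
    {h : Fin c → MvPolynomial (Fin (r + 4)) R}
    {g : Fin k → MvPolynomial (Fin (r + 4)) R} {δ : Fin c → ℕ}
    (hh : ∀ i, (h i).IsHomogeneous (δ i)) {e : ℕ} (hg : ∀ i, (g i).IsHomogeneous e)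
    (hs : 1 ≤ s) {C₀ : ℝ} (hC : 0 ≤ C₀)
    (hW : ∀ p : ℕ, p.Prime → ∀ φ : R →+* ZMod p,
      |points φ (Set.range h) - (p : ℝ) ^ 3| ≤ C₀ * (p : ℝ) ^ 2)
    (hZ : ∀ p : ℕ, p.Prime → ∀ φ : R →+* ZMod p,
      points φ (Set.range h ∪ Set.range g) ≤ C₀ * p)
    {ψ : R →+* ℂ} (hψ : Function.Injective ψ)
    {a₀ : Fin k × Mono (r + 4) s → R} (hS : SmoothSection ψ h (form g a₀))
    (hD : ∀ p : ℕ, p.Prime → ∀ (φ : R →+* ZMod p) (a : Fin k × Mono (r + 4) s → R),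
      Good φ h (form g a) → |trace φ h (form g a)| ≤ C₀ * p)
    {κ α : ℝ} (hκ0 : 0 ≤ κ) (hκ : κ < 1 / 2) (hα : 1 / (1 - 2 * κ) < α) :
    ∃ C c' : ℝ, 0 < c' ∧ ∀ w : ∀ p : ℕ, (R →+* ZMod p) → ℝ, (∀ p φ, |w p φ| ≤ 1) →
      ∀ B : ℕ, 1 ≤ B →
      (((box (r + 4) k s d B).filter fun a => ∃ T : ℕ, Real.log B ^ α ≤ T ∧
        (T ^ 2 ≤ B ∨ LongRange r s B T) ∧ (T : ℝ) ^ (-κ) <
          |average w T h (form g (coord b a)) - expectAverage w T h g|).card : ℝ) ≤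
        C * (B : ℝ) ^ (-c') * (box (r + 4) k s d B).card := by
  obtain ⟨A, CF, hf⟩ := fam (s := s) (C₀ := C₀) b hh hg hs hC hW hZ hψ hS
  obtain ⟨η, C1, c1, hη, hc1, hC1, hsm⟩ := small
    (Fintype.card ((Fin k × Mono (r + 4) s) × Fin d)) A CF (d * (3 * C₀ + 1)) hκ hα
  obtain ⟨C2, c2, hC2, hc2, h2⟩ := all2 (s := s) b hh hg hs hC hW hZ hψ hS hκ0 hκ
  refine ⟨C1 + C2 + 1, min c1 (η * c2), lt_min hc1 (mul_pos hη hc2), fun w hw B hB => ?_⟩
  have hBR : (1 : ℝ) ≤ B := by exact_mod_cast hB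
  have hB0 : (0 : ℝ) < B := by linarith
  have hX0 : (0 : ℝ) ≤ (box (r + 4) k s d B).card := Nat.cast_nonneg _
  have hP : 0 < (B : ℝ) ^ (-min c1 (η * c2)) := Real.rpow_pos_of_pos hB0 _
  by_cases hB1 : B = 1
  · have h3 : (((box (r + 4) k s d B).filter fun a => ∃ T : ℕ, Real.log B ^ α ≤ T ∧
        (T ^ 2 ≤ B ∨ LongRange r s B T) ∧ (T : ℝ) ^ (-κ) <
          |average w T h (form g (coord b a)) - expectAverage w T h g|).card : ℝ) ≤
        (box (r + 4) k s d B).card := by exact_mod_cast Finset.card_filter_le _ _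
    refine h3.trans ?_
    rw [hB1, Nat.cast_one, Real.one_rpow, mul_one]
    rw [hB1] at hX0
    nlinarith
  have hB2 : (2 : ℝ) ≤ B := by exact_mod_cast (by omega : 2 ≤ B)
  obtain ⟨T₀, hT₀⟩ : ∃ T₀ : ℕ, T₀ = ⌈(B : ℝ) ^ η⌉₊ := ⟨_, rfl⟩
  have hT₀1 : (B : ℝ) ^ η ≤ T₀ := by rw [hT₀]; exact Nat.le_ceil _
  have hT₀2 : 2 ≤ T₀ := by
    have h3 : (1 : ℝ) < (B : ℝ) ^ η := Real.one_lt_rpow (by linarith) hη
    have h4 : (1 : ℝ) < T₀ := lt_of_lt_of_le h3 hT₀1
    have h5 : 1 < T₀ := by exact_mod_cast h4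
    omega
  have h3 := hsm ((Fin k × Mono (r + 4) s) × Fin d) rfl _ (hf w hw)
    (fun p hp a => tt_bound b hC hW hZ hD hw hp a) B hB
  have h4 := h2 w hw T₀ B hT₀2
  have hsub : ((box (r + 4) k s d B).filter fun a => ∃ T : ℕ, Real.log B ^ α ≤ T ∧
        (T ^ 2 ≤ B ∨ LongRange r s B T) ∧ (T : ℝ) ^ (-κ) <
          |average w T h (form g (coord b a)) - expectAverage w T h g|) ⊆
        ((box (r + 4) k s d B).filter fun a => ∃ T : ℕ, Real.log B ^ α ≤ T ∧
        (T : ℝ) ≤ (B : ℝ) ^ η ∧ (T : ℝ) ^ (-κ) <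
          |(∑ p ∈ Pool.Agent.Helper29.TT.PRI T, Real.log p * tt w b h g p a) / T|) ∪
        ((box (r + 4) k s d B).filter fun a => ∃ T : ℕ, T₀ ≤ T ∧
        (T ^ 2 ≤ B ∨ LongRange r s B T) ∧ (T : ℝ) ^ (-κ) <
          |average w T h (form g (coord b a)) - expectAverage w T h g|) := by
    intro a ha
    obtain ⟨ha1, T, h5, h6, h7⟩ := Finset.mem_filter.1 ha
    rw [Finset.mem_union]
    by_cases h8 : (T : ℝ) ≤ (B : ℝ) ^ η
    · refine Or.inl (Finset.mem_filter.2 ⟨ha1, T, h5, h8, ?_⟩)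
      rw [average_sub b] at h7
      exact h7
    · refine Or.inr (Finset.mem_filter.2 ⟨ha1, T, ?_, h6, h7⟩)
      rw [hT₀]
      exact Nat.ceil_le.2 (not_le.1 h8).le
  have h5 := (Finset.card_le_card hsub).trans (Finset.card_union_le _ _)
  refine (Nat.cast_le.2 h5).trans ?_
  push_cast
  have h6 : C1 * (B : ℝ) ^ (-c1) * ((box (r + 4) k s d B).card : ℝ) ≤
      C1 * (B : ℝ) ^ (-min c1 (η * c2)) * (box (r + 4) k s d B).card := by
    apply mul_le_mul_of_nonneg_right _ hX0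
    apply mul_le_mul_of_nonneg_left _ hC1
    exact Real.rpow_le_rpow_of_exponent_le hBR (by linarith [min_le_left c1 (η * c2)])
  have h7 : C2 * (T₀ : ℝ) ^ (-c2) * ((box (r + 4) k s d B).card : ℝ) ≤
      C2 * (B : ℝ) ^ (-min c1 (η * c2)) * (box (r + 4) k s d B).card := by
    apply mul_le_mul_of_nonneg_right _ hX0
    apply mul_le_mul_of_nonneg_left _ hC2
    calc (T₀ : ℝ) ^ (-c2) ≤ ((B : ℝ) ^ η) ^ (-c2) :=
          Real.rpow_le_rpow_of_nonpos (Real.rpow_pos_of_pos hB0 _) hT₀1 (by linarith)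
      _ = (B : ℝ) ^ (-(η * c2)) := by
          rw [← Real.rpow_mul hB0.le]
          congr 1
          ring
      _ ≤ _ := Real.rpow_le_rpow_of_exponent_le hBR (by linarith [min_le_right c1 (η * c2)])
  have h8 : 0 ≤ (B : ℝ) ^ (-min c1 (η * c2)) * ((box (r + 4) k s d B).card : ℝ) := by positivity
  have h9 : (C1 + C2 + 1) * (B : ℝ) ^ (-min c1 (η * c2)) * ((box (r + 4) k s d B).card : ℝ) =
      C1 * (B : ℝ) ^ (-min c1 (η * c2)) * (box (r + 4) k s d B).card +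
      C2 * (B : ℝ) ^ (-min c1 (η * c2)) * (box (r + 4) k s d B).card +
      (B : ℝ) ^ (-min c1 (η * c2)) * ((box (r + 4) k s d B).card : ℝ) := by ring
  rw [h9]
  have h10 := h3.trans h6
  have h11 := h4.trans h7
  have h12 := add_le_add h10 h11
  refine le_trans ?_ (h12.trans (by linarith))
  rfl

end

end Pool.Agent.Helper29.LP
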