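import Pool.Agent.Helper25.FM.Dev
import Pool.Agent.Helper28.TC.AbsFin

/-!
# Power savings: preliminaries

A family of terms `t p` (functions of the residues modulo `p` of bounded mean square and with mean
`O(1 / √p)`) which is bounded by `L` is a bounded family with mean zero plus the means.
-/

set_option autoImplicit false

namespace Pool.Agent.Helper29.LP

open Finset
open Pool.Agent.Helper29.TT
open Pool.Agent.Helper25.FM (FamB)

section Mean

variable {J : Type} [Fintype J] [DecidableEq J] {t : ℕ → (J → ℤ) → ℝ} {A C L : ℝ}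

open Classical in
/-- The mean of the term of `p`. -/
noncomputable def mp (t : ℕ → (J → ℤ) → ℝ) (p : ℕ) : ℝ :=
  if h : p.Prime then
    haveI : NeZero p := ⟨h.ne_zero⟩
    (∑ u : J → ZMod p, t p (upJ u)) / (p : ℝ) ^ Fintype.card J
  else 0

lemma cast_upJ {p : ℕ} [NeZero p] (u : J → ZMod p) (j : J) : ((upJ u j : ℤ) : ZMod p) = u j := by
  unfold upJ
  push_cast
  exact ZMod.natCast_zmod_val (u j)

lemma mp_eq {p : ℕ} [hp : Fact p.Prime] {f : (J → ZMod p) → ℝ}
    (hf : ∀ a : J → ℤ, t p a = f fun j => ((a j : ℤ) : ZMod p)) :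
    mp t p = (∑ u, f u) / (p : ℝ) ^ Fintype.card J := by
  unfold mp
  rw [dif_pos hp.out]
  congr 1
  refine Finset.sum_congr rfl fun u _ => ?_
  rw [hf]
  congr 1
  funext j
  exact cast_upJ u j

lemma mp_abs (ht : Fam t A C) {p : ℕ} (hp : p.Prime) : |mp t p| ≤ C / Real.sqrt p := by
  have : Fact p.Prime := ⟨hp⟩
  obtain ⟨f, hf, -, h2⟩ := ht.f p
  have hp0 : (0 : ℝ) < p := by exact_mod_cast hp.pos
  have hP : 0 < (p : ℝ) ^ Fintype.card J := by positivity
  rw [mp_eq hf, abs_div, abs_of_pos hP, div_le_iff₀ hP]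
  refine h2.trans (le_of_eq ?_)
  ring

lemma famB (ht : Fam t A C) (hL : 0 ≤ L) (hb : ∀ p, p.Prime → ∀ a, |t p a| ≤ L) :
    FamB (fun p a => t p a - mp t p) (2 * L) := by
  refine ⟨by positivity, fun p hp => ?_⟩
  obtain ⟨f, hf, -, -⟩ := ht.f p
  have hp0 : (0 : ℝ) < p := by exact_mod_cast hp.out.pos
  have hP : 0 < (p : ℝ) ^ Fintype.card J := by positivity
  have hfb : ∀ u, |f u| ≤ L := by
    intro u
    have h1 := hb p hp.out (upJ u)
    rw [hf] at h1
    have h2 : (fun j => ((upJ u j : ℤ) : ZMod p)) = u := by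
      funext j
      exact cast_upJ u j
    rwa [h2] at h1
  have hcard : (Fintype.card (J → ZMod p) : ℝ) = (p : ℝ) ^ Fintype.card J := by
    rw [Fintype.card_fun, ZMod.card]
    push_cast
    rfl
  have hm : |mp t p| ≤ L := by
    rw [mp_eq hf, abs_div, abs_of_pos hP, div_le_iff₀ hP]
    refine (Finset.abs_sum_le_sum_abs _ _).trans ((Finset.sum_le_sum fun u _ => hfb u).trans
      (le_of_eq ?_))
    rw [Finset.sum_const, Finset.card_univ, nsmul_eq_mul, hcard]
    ring
  refine ⟨fun u => f u - mp t p, ?_, ?_, ?_⟩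
  · intro a
    rw [hf]
  · intro u
    have h1 := abs_sub (f u) (mp t p)
    have h2 := hfb u
    linarith
  · rw [Finset.sum_sub_distrib, Finset.sum_const, Finset.card_univ, nsmul_eq_mul, hcard, mp_eq hf]
    field_simp
    ring

lemma sum_log_mp (ht : Fam t A C) (T : ℕ) :
    |∑ p ∈ PRI T, Real.log p * mp t p| ≤ C * (Real.log T * (2 * Real.sqrt T)) := by
  have hC := ht.C_nonneg
  have hPT : ∀ p ∈ PRI T, p.Prime ∧ p ≤ T ∧ 1 ≤ p := by
    intro p hp
    unfold PRI at hp
    rw [Finset.mem_filter, Finset.mem_Icc] at hp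
    exact ⟨hp.2, hp.1.2, hp.1.1⟩
  refine (Finset.abs_sum_le_sum_abs _ _).trans ?_
  have h1 : ∀ p ∈ PRI T, |Real.log p * mp t p| ≤ C * Real.log T * (1 / Real.sqrt p) := by
    intro p hp
    obtain ⟨h1, h2, h3⟩ := hPT p hp
    have h0 : 0 ≤ Real.log p := Real.log_nonneg (by exact_mod_cast h3)
    have h4 : Real.log p ≤ Real.log T :=
      Real.log_le_log (by exact_mod_cast h1.pos) (by exact_mod_cast h2)
    rw [abs_mul, abs_of_nonneg h0]
    calc Real.log p * |mp t p| ≤ Real.log T * (C / Real.sqrt p) :=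
          mul_le_mul h4 (mp_abs ht h1) (abs_nonneg _) (h0.trans h4)
      _ = _ := by ring
  refine (Finset.sum_le_sum h1).trans ?_
  rw [← Finset.mul_sum]
  have h2 : ∑ p ∈ PRI T, 1 / Real.sqrt (p : ℝ) ≤ 2 * Real.sqrt T := by
    refine le_trans ?_ (Pool.Agent.Helper28.TC.sum_inv_sqrt T)
    unfold PRI
    exact Finset.sum_le_sum_of_subset_of_nonneg (Finset.filter_subset _ _)
      fun p _ _ => by positivity
  have h3 : 0 ≤ C * Real.log T := by
    rcases Nat.eq_zero_or_pos T with h6 | h6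
    · rw [h6]; simp
    · exact mul_nonneg hC (Real.log_nonneg (by exact_mod_cast h6))
  refine (mul_le_mul_of_nonneg_left h2 h3).trans (le_of_eq ?_)
  ring

end Mean

end Pool.Agent.Helper29.LP
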