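import Pool.Agent.Helper29.LN.Defs
import Pool.Agent.Helper29.LG.Defs

set_option autoImplicit false

namespace Pool.Agent.Helper29.LP

open MvPolynomial
open Pool.Agent.Helper29.LN

/-- The coordinate vectors of the sections. -/
def Vec (r k s d : ℕ) : Type := (Fin k × Mono (r + 4) s) × Fin d → ℤ

/-- The height of a coordinate vector, the largest absolute value of its coordinates. -/
def height {r k s d : ℕ} (a : Vec r k s d) : ℕ := Finset.univ.sup fun j => (a j).natAbs

/-- The proportion of the vectors with the property `P` among those of height at most `B`. -/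
noncomputable def share {r k s d : ℕ} (B : ℕ) (P : Vec r k s d → Prop) : ℝ :=
  (Nat.card {a : Vec r k s d // height a ≤ B ∧ P a} : ℝ) /
    Nat.card {a : Vec r k s d // height a ≤ B}

/-- The distance of the average for the section with the coordinate vector `a` from its expected
value. -/
noncomputable def dev {R : Type} [CommRing R] {r c k s d : ℕ} (b : Fin d → R)
    (w : ∀ p : ℕ, (R →+* ZMod p) → ℝ) (T : ℕ) (h : Fin c → MvPolynomial (Fin (r + 4)) R)
    (g : Fin k → MvPolynomial (Fin (r + 4)) R) (a : Vec r k s d) : ℝ :=
  |average w T h (form g (coord b a)) - expectAverage w T h g|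

end Pool.Agent.Helper29.LP
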