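import Pool.Agent.Helper29.LP.All
import Pool.Agent.Helper29.LP.Defs

/-!
# The version with the height of the surface
-/

set_option autoImplicit false

namespace Pool.Agent.Helper29.LP

open Finset MvPolynomial
open Pool.Agent.Helper29.LN Pool.Agent.Helper29.LG

/-- The height. -/
def hgt {J : Type} [Fintype J] (a : J → ℤ) : ℕ := Finset.univ.sup fun j => (a j).natAbs

lemma hgt_le {J : Type} [Fintype J] (a : J → ℤ) (B : ℕ) :
    hgt a ≤ B ↔ ∀ j, a j ∈ Icc (-(B : ℤ)) B := by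
  unfold hgt
  rw [Finset.sup_le_iff]
  constructor
  · intro h j
    have := h j (Finset.mem_univ _)
    rw [Finset.mem_Icc]
    omega
  · intro h j _
    have := Finset.mem_Icc.1 (h j)
    omega

lemma longRange_mono {r s B B' T : ℕ} (hB : B ≤ B') (h : LongRange r s B T) :
    LongRange r s B' T := by
  obtain ⟨m, h1, h2, h3, h4⟩ := h
  exact ⟨m, h1, h2, h3, lt_of_lt_of_le h4 (Nat.pow_le_pow_left (by omega) m)⟩

section

variable {R : Type} [CommRing R] {r c k s d : ℕ}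

lemma mem_box {a : (Fin k × Mono (r + 4) s) × Fin d → ℤ} {B : ℕ} :
    a ∈ LN.box (r + 4) k s d B ↔ hgt a ≤ B := by
  rw [hgt_le]
  unfold LN.box
  rw [Fintype.mem_piFinset]

lemma card_small_box [Nonempty ((Fin k × Mono (r + 4) s) × Fin d)] {B : ℕ} (hB : 1 ≤ B) :
    ((box (r + 4) k s d (Nat.sqrt B)).card : ℝ) ≤
      3 * (B : ℝ) ^ (-(1 / 2 : ℝ)) * (box (r + 4) k s d B).card := by
  obtain ⟨n, hn⟩ : ∃ n, Fintype.card ((Fin k × Mono (r + 4) s) × Fin d) = n + 1 :=
    ⟨_, (Nat.succ_pred_eq_of_pos Fintype.card_pos).symm⟩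
  have hc : ∀ B' : ℕ, ((box (r + 4) k s d B').card : ℝ) = (2 * (B' : ℝ) + 1) ^ (n + 1) := by
    intro B'
    unfold LN.box
    rw [Fintype.card_piFinset, Finset.prod_const, Int.card_Icc, Finset.card_univ, hn]
    have : ((B' : ℤ) + 1 - -(B' : ℤ)).toNat = 2 * B' + 1 := by omega
    rw [this]
    push_cast
    ring
  rw [hc, hc]
  have hB0 : (1 : ℝ) ≤ B := by exact_mod_cast hB
  have hs1 : (Nat.sqrt B : ℝ) ≤ Real.sqrt B := by
    apply Real.le_sqrt_of_sq_le
    have := Nat.sqrt_le' B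
    exact_mod_cast this
  have hs2 : 1 ≤ Real.sqrt B := Real.one_le_sqrt.2 hB0
  have hs3 : Real.sqrt B * Real.sqrt B = B := Real.mul_self_sqrt (by linarith)
  have e1 : (B : ℝ) ^ (-(1 / 2 : ℝ)) = (Real.sqrt B)⁻¹ := by
    rw [Real.rpow_neg (by linarith), Real.sqrt_eq_rpow]
  rw [e1, pow_succ, pow_succ]
  have h1 : 2 * (Nat.sqrt B : ℝ) + 1 ≤ 3 * (Real.sqrt B)⁻¹ * (2 * B + 1) := by
    have h2 : 3 * (Real.sqrt B)⁻¹ * (2 * B + 1) = 6 * Real.sqrt B + 3 * (Real.sqrt B)⁻¹ := by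
      have h3 : (Real.sqrt B)⁻¹ * (B : ℝ) = Real.sqrt B := by
        rw [inv_mul_eq_iff_eq_mul₀ (by linarith)]
        exact hs3.symm
      calc _ = 6 * ((Real.sqrt B)⁻¹ * (B : ℝ)) + 3 * (Real.sqrt B)⁻¹ := by ring
        _ = _ := by rw [h3]
    rw [h2]
    have h3 : 0 ≤ (Real.sqrt B)⁻¹ := by positivity
    linarith
  have h2 : (2 * (Nat.sqrt B : ℝ) + 1) ^ n ≤ (2 * (B : ℝ) + 1) ^ n := by
    apply pow_le_pow_left₀ (by positivity)
    have : Real.sqrt B ≤ B := by nlinarith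
    linarith
  calc (2 * (Nat.sqrt B : ℝ) + 1) ^ n * (2 * (Nat.sqrt B : ℝ) + 1) ≤
      (2 * (B : ℝ) + 1) ^ n * (3 * (Real.sqrt B)⁻¹ * (2 * B + 1)) :=
        mul_le_mul h2 h1 (by positivity) (by positivity)
    _ = _ := by ring

open Classical in
/-- The third part with the height of the surface. -/
theorem all4 [IsDomain R] (b : Module.Basis (Fin d) ℤ R)
    {h : Fin c → MvPolynomial (Fin (r + 4)) R}
    {g : Fin k → MvPolynomial (Fin (r + 4)) R} {δ : Fin c → ℕ}
    (hh : ∀ i, (h i).IsHomogeneous (δ i)) {e : ℕ} (hg : ∀ i, (g i).IsHomogeneous e)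
    (hs : 1 ≤ s) {C₀ : ℝ} (hC : 0 ≤ C₀)
    (hW : ∀ p : ℕ, p.Prime → ∀ φ : R →+* ZMod p,
      |points φ (Set.range h) - (p : ℝ) ^ 3| ≤ C₀ * (p : ℝ) ^ 2)
    (hZ : ∀ p : ℕ, p.Prime → ∀ φ : R →+* ZMod p,
      points φ (Set.range h ∪ Set.range g) ≤ C₀ * p)
    {ψ : R →+* ℂ} (hψ : Function.Injective ψ)
    {a₀ : Fin k × Mono (r + 4) s → R} (hS : SmoothSection ψ h (form g a₀))
    (hD : ∀ p : ℕ, p.Prime → ∀ (φ : R →+* ZMod p) (a : Fin k × Mono (r + 4) s → R),
      Good φ h (form g a) → |trace φ h (form g a)| ≤ C₀ * p)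
    {κ α : ℝ} (hκ0 : 0 ≤ κ) (hκ : κ < 1 / 2) (hα : 1 / (1 - 2 * κ) < α) :
    ∃ C c' : ℝ, 0 < c' ∧ ∀ w : ∀ p : ℕ, (R →+* ZMod p) → ℝ, (∀ p φ, |w p φ| ≤ 1) →
      ∀ B : ℕ, 1 ≤ B →
      (((box (r + 4) k s d B).filter fun a => ∃ T : ℕ, Real.log (hgt a) ^ α ≤ T ∧
        (T ^ 2 ≤ hgt a ∨ LongRange r s (hgt a) T) ∧ (T : ℝ) ^ (-κ) <
          |average w T h (form g (coord b a)) - expectAverage w T h g|).card : ℝ) ≤
        C * (B : ℝ) ^ (-c') * (box (r + 4) k s d B).card := by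
  -- no variables: the height is zero
  rcases isEmpty_or_nonempty ((Fin k × Mono (r + 4) s) × Fin d) with hem | hne
  · refine ⟨0, 1, one_pos, fun w hw B hB => ?_⟩
    have : ((box (r + 4) k s d B).filter fun a => ∃ T : ℕ, Real.log (hgt a) ^ α ≤ T ∧
        (T ^ 2 ≤ hgt a ∨ LongRange r s (hgt a) T) ∧ (T : ℝ) ^ (-κ) <
          |average w T h (form g (coord b a)) - expectAverage w T h g|) = ∅ := by
      rw [Finset.filter_eq_empty_iff]
      rintro a _ ⟨T, _, h4, h5⟩
      have h0 : hgt a = 0 := by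
        unfold hgt
        rw [Finset.univ_eq_empty, Finset.sup_empty]
        rfl
      rw [h0] at h4
      rcases h4 with h4 | h4
      · have hT : T = 0 := by
          by_contra hT
          have : 1 ≤ T ^ 2 := Nat.one_le_pow _ _ (by omega)
          omega
        rw [hT, average_sub b] at h5
        rw [Nat.cast_zero, div_zero, abs_zero] at h5
        have h6 : (0 : ℝ) ≤ (0 : ℝ) ^ (-κ) := Real.rpow_nonneg le_rfl _
        linarith
      · have := lt_of_longRange hs h4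
        rw [Nat.mul_zero, zero_pow (by omega)] at this
        omega
    rw [this, Finset.card_empty, Nat.cast_zero]
    simp
  have he0 : 0 < 1 - 2 * κ := by linarith
  obtain ⟨β, hβ1, hβ2⟩ := exists_between hα
  have hβ0 : 0 < β := lt_trans (by positivity) hβ1
  have hα0 : 0 < α := hβ0.trans hβ2
  obtain ⟨C1, c1, hc1, h1⟩ := all3 (s := s) b hh hg hs hC hW hZ hψ hS hD hκ0 hκ hβ1
  -- for large `B` the height of most vectors is at least the square root of `B`
  obtain ⟨L0, hL0⟩ : ∃ L0 : ℝ, L0 = (2 : ℝ) ^ (α / (α - β)) := ⟨_, rfl⟩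
  have hL00 : 0 < L0 := by rw [hL0]; positivity
  have hlow : ∀ L : ℝ, L0 ≤ L → L ^ β ≤ (L / 2) ^ α := by
    intro L hL
    have hLp : 0 < L := lt_of_lt_of_le hL00 hL
    rw [Real.div_rpow hLp.le (by norm_num), le_div_iff₀ (by positivity)]
    have h2 : (2 : ℝ) ^ α ≤ L ^ (α - β) := by
      calc (2 : ℝ) ^ α = L0 ^ (α - β) := by
            rw [hL0, ← Real.rpow_mul (by norm_num), div_mul_cancel₀ _ (by linarith)]
        _ ≤ L ^ (α - β) := Real.rpow_le_rpow hL00.le hL (by linarith)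
    calc L ^ β * 2 ^ α ≤ L ^ β * L ^ (α - β) :=
          mul_le_mul_of_nonneg_left h2 (Real.rpow_nonneg hLp.le _)
      _ = L ^ α := by
          rw [← Real.rpow_add hLp]
          congr 1
          ring
  obtain ⟨B1, hB1⟩ : ∃ B1 : ℝ, B1 = Real.exp L0 := ⟨_, rfl⟩
  have hB10 : 0 < B1 := by rw [hB1]; exact Real.exp_pos _
  refine ⟨|C1| + 3 + B1 ^ min c1 (1 / 2), min c1 (1 / 2), by positivity, fun w hw B hB => ?_⟩
  have hBR : (1 : ℝ) ≤ B := by exact_mod_cast hB
  have hB0 : (0 : ℝ) < B := by linarith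
  have hX0 : (0 : ℝ) ≤ (box (r + 4) k s d B).card := Nat.cast_nonneg _
  have hP : 0 < (B : ℝ) ^ (-min c1 (1 / 2)) := Real.rpow_pos_of_pos hB0 _
  rcases lt_or_ge (B : ℝ) B1 with hlt | hge
  · have h3 : (((box (r + 4) k s d B).filter fun a => ∃ T : ℕ, Real.log (hgt a) ^ α ≤ T ∧
        (T ^ 2 ≤ hgt a ∨ LongRange r s (hgt a) T) ∧ (T : ℝ) ^ (-κ) <
          |average w T h (form g (coord b a)) - expectAverage w T h g|).card : ℝ) ≤
        (box (r + 4) k s d B).card := by exact_mod_cast Finset.card_filter_le _ _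
    refine h3.trans ?_
    have h5 : 1 ≤ B1 ^ min c1 (1 / 2) * (B : ℝ) ^ (-min c1 (1 / 2)) := by
      rw [Real.rpow_neg hB0.le, ← div_eq_mul_inv, le_div_iff₀ (Real.rpow_pos_of_pos hB0 _),
        one_mul]
      exact Real.rpow_le_rpow hB0.le hlt.le (by positivity)
    have h6 : 1 ≤ (|C1| + 3 + B1 ^ min c1 (1 / 2)) * (B : ℝ) ^ (-min c1 (1 / 2)) := by
      have h7 : 0 ≤ (|C1| + 3) * (B : ℝ) ^ (-min c1 (1 / 2)) := by positivity
      linarith
    nlinarith
  have hlB : L0 ≤ Real.log B := by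
    rw [Real.le_log_iff_exp_le hB0, ← hB1]
    exact hge
  have h2 := h1 w hw B hB
  have hsub : ((box (r + 4) k s d B).filter fun a => ∃ T : ℕ, Real.log (hgt a) ^ α ≤ T ∧
        (T ^ 2 ≤ hgt a ∨ LongRange r s (hgt a) T) ∧ (T : ℝ) ^ (-κ) <
          |average w T h (form g (coord b a)) - expectAverage w T h g|) ⊆
        ((box (r + 4) k s d B).filter fun a => ∃ T : ℕ, Real.log B ^ β ≤ T ∧
        (T ^ 2 ≤ B ∨ LongRange r s B T) ∧ (T : ℝ) ^ (-κ) <
          |average w T h (form g (coord b a)) - expectAverage w T h g|) ∪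
        box (r + 4) k s d (Nat.sqrt B) := by
    intro a ha
    obtain ⟨ha1, T, h3, h4, h5⟩ := Finset.mem_filter.1 ha
    have hHB : hgt a ≤ B := mem_box.1 ha1
    rw [Finset.mem_union, mem_box]
    by_cases h6 : hgt a ≤ Nat.sqrt B
    · exact Or.inr h6
    · refine Or.inl (Finset.mem_filter.2 ⟨ha1, T, ?_, ?_, h5⟩)
      · refine le_trans ?_ h3
        refine (hlow _ hlB).trans ?_
        have h7 : Real.log B / 2 ≤ Real.log (hgt a) := by
          have h8 : B ≤ hgt a ^ 2 := by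
            have h9 : B < (Nat.sqrt B + 1) * (Nat.sqrt B + 1) := Nat.lt_succ_sqrt B
            have h10 : Nat.sqrt B + 1 ≤ hgt a := by omega
            calc B ≤ (Nat.sqrt B + 1) * (Nat.sqrt B + 1) := h9.le
              _ ≤ hgt a * hgt a := Nat.mul_le_mul h10 h10
              _ = hgt a ^ 2 := (sq _).symm
          have h9 : (B : ℝ) ≤ (hgt a : ℝ) ^ 2 := by exact_mod_cast h8
          have h10 := Real.log_le_log hB0 h9
          rw [Real.log_pow] at h10
          push_cast at h10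
          linarith
        exact Real.rpow_le_rpow (by linarith) h7 hα0.le
      · rcases h4 with h4 | h4
        · exact Or.inl (h4.trans hHB)
        · exact Or.inr (longRange_mono hHB h4)
  have h3 := (Finset.card_le_card hsub).trans (Finset.card_union_le _ _)
  refine (Nat.cast_le.2 h3).trans ?_
  push_cast
  have h4 := card_small_box (k := k) (s := s) (r := r) (d := d) hB
  have h5 : C1 * (B : ℝ) ^ (-c1) * ((box (r + 4) k s d B).card : ℝ) ≤
      |C1| * (B : ℝ) ^ (-min c1 (1 / 2)) * (box (r + 4) k s d B).card := by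
    apply mul_le_mul_of_nonneg_right _ hX0
    apply mul_le_mul (le_abs_self _) _ (by positivity) (abs_nonneg _)
    exact Real.rpow_le_rpow_of_exponent_le hBR (by linarith [min_le_left c1 (1 / 2)])
  have h6 : 3 * (B : ℝ) ^ (-(1 / 2 : ℝ)) * ((box (r + 4) k s d B).card : ℝ) ≤
      3 * (B : ℝ) ^ (-min c1 (1 / 2)) * (box (r + 4) k s d B).card := by
    apply mul_le_mul_of_nonneg_right _ hX0
    apply mul_le_mul_of_nonneg_left _ (by norm_num)
    exact Real.rpow_le_rpow_of_exponent_le hBR (by linarith [min_le_right c1 (1 / 2)])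
  have h7 : 0 ≤ B1 ^ min c1 (1 / 2) * (B : ℝ) ^ (-min c1 (1 / 2)) *
      ((box (r + 4) k s d B).card : ℝ) := by positivity
  have h8 := add_le_add (h2.trans h5) (h4.trans h6)
  have h9 : (|C1| + 3 + B1 ^ min c1 (1 / 2)) * (B : ℝ) ^ (-min c1 (1 / 2)) *
      ((box (r + 4) k s d B).card : ℝ) =
      |C1| * (B : ℝ) ^ (-min c1 (1 / 2)) * (box (r + 4) k s d B).card +
      3 * (B : ℝ) ^ (-min c1 (1 / 2)) * (box (r + 4) k s d B).card +
      B1 ^ min c1 (1 / 2) * (B : ℝ) ^ (-min c1 (1 / 2)) * ((box (r + 4) k s d B).card : ℝ) := by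
    ring
  rw [h9]
  linarith

open Classical in
lemma share_le {B : ℕ} {P : Vec r k s d → Prop} {x : ℝ}
    (h : (((LN.box (r + 4) k s d B).filter fun a => P a).card : ℝ) ≤
      x * (LN.box (r + 4) k s d B).card) : share B P ≤ x := by
  have h0 : (0 : ℝ) < (LN.box (r + 4) k s d B).card := by
    have : (0 : (Fin k × Mono (r + 4) s) × Fin d → ℤ) ∈ LN.box (r + 4) k s d B := by
      unfold LN.box
      rw [Fintype.mem_piFinset]
      intro j
      rw [Finset.mem_Icc, Pi.zero_apply]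
      omega
    exact_mod_cast Finset.card_pos.2 ⟨_, this⟩
  have e2 : Nat.card {a : Vec r k s d // height a ≤ B} = (LN.box (r + 4) k s d B).card := by
    rw [← Nat.card_eq_finsetCard]
    exact Nat.card_congr (Equiv.subtypeEquivRight fun a => (mem_box (a := a)).symm)
  have e1 : Nat.card {a : Vec r k s d // height a ≤ B ∧ P a} =
      ((LN.box (r + 4) k s d B).filter fun a => P a).card := by
    rw [← Nat.card_eq_finsetCard]
    exact Nat.card_congr (Equiv.subtypeEquivRight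
      fun a => ((Finset.mem_filter (a := a)).trans (and_congr_left' (mem_box (a := a)))).symm)
  unfold share
  rw [e1, e2, div_le_iff₀ h0]
  exact h

end

end Pool.Agent.Helper29.LP
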