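import Pool.Agent.Helper29.LP.Base

/-!
# `T` up to the square root of `B`

The average is at most `T ^ (- κ)` for all `T ≥ T₀` with `T ^ 2 ≤ B` at once outside a proportion
`C T₀ ^ (- c)`, for every `κ < 1 / 2`.
-/

set_option autoImplicit false

namespace Pool.Agent.Helper29.LP

open Finset
open Pool.Agent.Helper29.TT
open Pool.Agent.Helper25.FM (count2 K2)

/-- Powers times geometric sequences are summable. -/
lemma exists_geom {q : ℝ} (hq0 : 0 < q) (hq1 : q < 1) :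
    ∃ G : ℝ, 0 ≤ G ∧ ∀ j0 j1 : ℕ, ∑ j ∈ Icc j0 j1, ((j : ℝ) + 2) ^ 4 * (q ^ 2) ^ j ≤ G * q ^ j0 := by
  have h1 := tendsto_pow_const_mul_const_pow_of_abs_lt_one 4 (r := q)
    (by rw [abs_of_pos hq0]; exact hq1)
  obtain ⟨M, hM⟩ := h1.bddAbove_range
  have hM' : ∀ n : ℕ, (n : ℝ) ^ 4 * q ^ n ≤ M := fun n => hM ⟨n, rfl⟩
  have hM0 : 0 ≤ M := by
    have := hM' 0
    simpa using this
  refine ⟨M / q ^ 2 / (1 - q), by
    have : 0 < 1 - q := by linarith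
    positivity, fun j0 j1 => ?_⟩
  have h1q : 0 < 1 - q := by linarith
  have h2 : ∀ j : ℕ, ((j : ℝ) + 2) ^ 4 * (q ^ 2) ^ j ≤ M / q ^ 2 * q ^ j := by
    intro j
    have h3 := hM' (j + 2)
    push_cast at h3
    have h4 : ((j : ℝ) + 2) ^ 4 * (q ^ 2) ^ j = (((j : ℝ) + 2) ^ 4 * q ^ (j + 2)) / q ^ 2 * q ^ j := by
      rw [pow_add]
      field_simp
      rw [← pow_mul, ← pow_mul]
      congr 1
      ring
    rw [h4]
    apply mul_le_mul_of_nonneg_right _ (by positivity)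
    exact div_le_div_of_nonneg_right h3 (by positivity)
  refine (Finset.sum_le_sum fun j _ => h2 j).trans ?_
  rw [← Finset.mul_sum]
  have h5 : ∑ j ∈ Icc j0 j1, q ^ j ≤ q ^ j0 / (1 - q) := by
    rcases le_or_gt j0 j1 with h | h
    · have h6 : Icc j0 j1 = Ico j0 (j1 + 1) := by
        ext x; simp only [Finset.mem_Icc, Finset.mem_Ico]; omega
      rw [h6, geom_sum_Ico' hq1.ne (by omega)]
      apply div_le_div_of_nonneg_right _ h1q.le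
      have : 0 ≤ q ^ (j1 + 1) := by positivity
      linarith
    · rw [Finset.Icc_eq_empty (by omega), Finset.sum_empty]
      positivity
  have h7 : 0 ≤ M / q ^ 2 := by positivity
  refine (mul_le_mul_of_nonneg_left h5 h7).trans (le_of_eq ?_)
  field_simp

section Block

variable {J : Type} [Fintype J] [DecidableEq J] {t : ℕ → (J → ℤ) → ℝ} {A C : ℝ}

open Classical in
/-- One block. -/
lemma block (ht : Fam t A C) {κ : ℝ} (hκ0 : 0 ≤ κ) (hκ : κ < 1 / 2) {j B : ℕ} (hj : 1 ≤ j)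
    (hB : 2 ^ (2 * j) ≤ B) :
    (((boxJ J B).filter fun a => ∃ T : ℕ, 2 ^ j ≤ T ∧ T ≤ 2 ^ (j + 1) ∧
      ((2 : ℝ) ^ (j + 1)) ^ (-κ) < |(∑ p ∈ PRI T, Real.log p * t p a) / T|).card : ℝ) ≤
      6 * K2 (Fintype.card J) A C * (((j : ℝ) + 2) ^ 4 * (((2 : ℝ) ^ (-((1 - 2 * κ) / 2))) ^ 2) ^ j) *
        (boxJ J B).card := by
  have hK2 : 0 ≤ K2 (Fintype.card J) A C := by
    have hA := ht.A_nonneg
    have hl : 0 < Real.log 2 := Real.log_pos (by norm_num)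
    unfold K2
    positivity
  have h2j : 2 ≤ 2 ^ j := by
    calc 2 = 2 ^ 1 := by norm_num
      _ ≤ 2 ^ j := Nat.pow_le_pow_right (by norm_num) hj
  have h2j1 : 2 ^ (j + 1) ≤ B := (Nat.pow_le_pow_right (by norm_num) (by omega)).trans hB
  have h1 := count2 ht (2 ^ j) (2 ^ (j + 1)) B h2j h2j1
    (ε := ((2 : ℝ) ^ (j + 1)) ^ (-κ)) (by positivity)
  refine h1.trans ?_
  apply mul_le_mul_of_nonneg_right _ (Nat.cast_nonneg _)
  have hl2 : Real.log 2 ≤ 1 := by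
    have := Real.log_two_lt_d9; linarith
  have hl20 : 0 ≤ Real.log 2 := Real.log_nonneg (by norm_num)
  have hj0 : (0 : ℝ) ≤ j := Nat.cast_nonneg j
  have hBR : ((2 : ℝ) ^ j) ^ 2 ≤ B := by
    rw [← pow_mul, mul_comm j 2]
    exact_mod_cast hB
  have hP : 0 < (2 : ℝ) ^ j := by positivity
  have hB0 : (0 : ℝ) < B := lt_of_lt_of_le (by positivity) hBR
  have h2 : Real.log ((2 ^ j : ℕ) : ℝ) ^ 4 / ((2 ^ j : ℕ) : ℝ) ≤ ((j : ℝ) + 2) ^ 4 / 2 ^ j := by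
    push_cast
    apply div_le_div_of_nonneg_right _ hP.le
    rw [Real.log_pow]
    exact pow_le_pow_left₀ (by positivity) (by nlinarith) 4
  have h3 : ((2 ^ (j + 1) : ℕ) : ℝ) * Real.log ((2 ^ (j + 1) : ℕ) : ℝ) ^ 4 / B ≤
      2 * (((j : ℝ) + 2) ^ 4 / 2 ^ j) := by
    push_cast
    rw [Real.log_pow]
    have h4 : (((j + 1 : ℕ) : ℝ) * Real.log 2) ^ 4 ≤ ((j : ℝ) + 2) ^ 4 := by
      apply pow_le_pow_left₀ (by positivity)
      push_cast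
      nlinarith
    calc (2 : ℝ) ^ (j + 1) * (((j + 1 : ℕ) : ℝ) * Real.log 2) ^ 4 / B ≤
        (2 : ℝ) ^ (j + 1) * ((j : ℝ) + 2) ^ 4 / ((2 : ℝ) ^ j) ^ 2 := by
          apply div_le_div₀ (by positivity) _ (by positivity) hBR
          exact mul_le_mul_of_nonneg_left h4 (by positivity)
      _ = _ := by
          rw [pow_succ]
          field_simp
  have h5 : (1 : ℝ) / (((2 : ℝ) ^ (j + 1)) ^ (-κ)) ^ 2 * (1 / 2 ^ j) ≤
      2 * (((2 : ℝ) ^ (-((1 - 2 * κ) / 2))) ^ 2) ^ j := by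
    have e1 : (((2 : ℝ) ^ (-((1 - 2 * κ) / 2))) ^ 2) ^ j = (2 : ℝ) ^ (-((1 - 2 * κ) * j)) := by
      rw [← pow_mul, ← Real.rpow_natCast, ← Real.rpow_mul (by norm_num)]
      congr 1
      push_cast
      ring
    have e2 : (1 : ℝ) / (((2 : ℝ) ^ (j + 1)) ^ (-κ)) ^ 2 * (1 / 2 ^ j) =
        (2 : ℝ) ^ (2 * κ * (j + 1) - j) := by
      rw [one_div, one_div, ← Real.rpow_natCast (2 : ℝ) (j + 1), ← Real.rpow_natCast (2 : ℝ) j,
        ← Real.rpow_mul (by norm_num), ← Real.rpow_natCast _ 2, ← Real.rpow_mul (by norm_num),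
        ← Real.rpow_neg (by norm_num), ← Real.rpow_neg (by norm_num),
        ← Real.rpow_add (by norm_num)]
      congr 1
      push_cast
      ring
    rw [e1, e2]
    have e3 : (2 : ℝ) ^ (2 * κ * (j + 1) - j) = (2 : ℝ) ^ (2 * κ) * (2 : ℝ) ^ (-((1 - 2 * κ) * j)) := by
      rw [← Real.rpow_add (by norm_num)]
      congr 1
      ring
    rw [e3]
    apply mul_le_mul_of_nonneg_right _ (by positivity)
    calc (2 : ℝ) ^ (2 * κ) ≤ (2 : ℝ) ^ (1 : ℝ) :=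
          Real.rpow_le_rpow_of_exponent_le (by norm_num) (by linarith)
      _ = 2 := Real.rpow_one 2
  have h6 : Real.log ((2 ^ j : ℕ) : ℝ) ^ 4 / ((2 ^ j : ℕ) : ℝ) +
      ((2 ^ (j + 1) : ℕ) : ℝ) * Real.log ((2 ^ (j + 1) : ℕ) : ℝ) ^ 4 / B ≤
      3 * ((j : ℝ) + 2) ^ 4 * (1 / 2 ^ j) := by
    have : 3 * ((j : ℝ) + 2) ^ 4 * (1 / 2 ^ j) = 3 * (((j : ℝ) + 2) ^ 4 / 2 ^ j) := by ring
    rw [this]
    linarith
  obtain ⟨E, hE⟩ : ∃ E, E = (((2 : ℝ) ^ (j + 1)) ^ (-κ)) ^ 2 := ⟨_, rfl⟩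
  have hE0 : 0 < E := by rw [hE]; positivity
  rw [← hE] at h5 ⊢
  calc K2 (Fintype.card J) A C / E * _ ≤
      K2 (Fintype.card J) A C / E * (3 * ((j : ℝ) + 2) ^ 4 * (1 / 2 ^ j)) :=
        mul_le_mul_of_nonneg_left h6 (by positivity)
    _ = (3 * K2 (Fintype.card J) A C * ((j : ℝ) + 2) ^ 4) * (1 / E * (1 / 2 ^ j)) := by ring
    _ ≤ (3 * K2 (Fintype.card J) A C * ((j : ℝ) + 2) ^ 4) *
        (2 * (((2 : ℝ) ^ (-((1 - 2 * κ) / 2))) ^ 2) ^ j) :=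
        mul_le_mul_of_nonneg_left h5 (by positivity)
    _ = _ := by ring

end Block

lemma qpow_le {σ : ℝ} (hσ0 : 0 ≤ σ) (hσ : σ ≤ 1) {T₀ : ℕ} (hT₀ : 2 ≤ T₀) :
    ((2 : ℝ) ^ (-(σ / 2))) ^ (Nat.log 2 T₀) ≤ 2 * (T₀ : ℝ) ^ (-(σ / 2)) := by
  have hT : (0 : ℝ) < T₀ := by exact_mod_cast (by omega : 0 < T₀)
  have h1 : (T₀ : ℝ) ≤ 2 * 2 ^ (Nat.log 2 T₀) := by
    have := (Nat.lt_pow_succ_log_self (b := 2) (by norm_num) T₀).le
    rw [pow_succ'] at this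
    exact_mod_cast this
  have e1 : ((2 : ℝ) ^ (-(σ / 2))) ^ (Nat.log 2 T₀) = ((2 : ℝ) ^ (Nat.log 2 T₀)) ^ (-(σ / 2)) := by
    rw [← Real.rpow_natCast, ← Real.rpow_natCast, ← Real.rpow_mul (by norm_num),
      ← Real.rpow_mul (by norm_num)]
    congr 1
    ring
  rw [e1]
  have h2 : ((2 : ℝ) ^ (Nat.log 2 T₀)) ^ (-(σ / 2)) ≤ ((T₀ : ℝ) / 2) ^ (-(σ / 2)) :=
    Real.rpow_le_rpow_of_nonpos (by positivity) (by linarith) (by linarith)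
  refine h2.trans ?_
  rw [Real.div_rpow hT.le (by norm_num), div_eq_mul_inv, mul_comm]
  apply mul_le_mul_of_nonneg_right _ (by positivity)
  rw [← Real.rpow_neg (by norm_num), neg_neg]
  calc (2 : ℝ) ^ (σ / 2) ≤ (2 : ℝ) ^ (1 : ℝ) :=
        Real.rpow_le_rpow_of_exponent_le (by norm_num) (by linarith)
    _ = 2 := Real.rpow_one 2

open Classical in
/-- `T` up to the square root of `B`. -/
theorem mid (n : ℕ) (A C : ℝ) {κ : ℝ} (hκ0 : 0 ≤ κ) (hκ : κ < 1 / 2) :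
    ∃ C' : ℝ, 0 ≤ C' ∧ ∀ (J : Type) [Fintype J] [DecidableEq J],
      Fintype.card J = n → ∀ t : ℕ → (J → ℤ) → ℝ, Fam t A C → ∀ T₀ B : ℕ, 2 ≤ T₀ →
      (((boxJ J B).filter fun a => ∃ T : ℕ, T₀ ≤ T ∧ T ^ 2 ≤ B ∧
        (T : ℝ) ^ (-κ) < |(∑ p ∈ PRI T, Real.log p * t p a) / T|).card : ℝ) ≤
        C' * (T₀ : ℝ) ^ (-((1 - 2 * κ) / 2)) * (boxJ J B).card := by
  have hσ : 0 < (1 - 2 * κ) / 2 := by linarith
  have hq1 : (2 : ℝ) ^ (-((1 - 2 * κ) / 2)) < 1 :=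
    Real.rpow_lt_one_of_one_lt_of_neg (by norm_num) (by linarith)
  obtain ⟨G, hG0, hG⟩ := exists_geom (q := (2 : ℝ) ^ (-((1 - 2 * κ) / 2))) (by positivity) hq1
  refine ⟨6 * |K2 n A C| * (G * 2), by positivity, ?_⟩
  intro J _ _ hJ t ht T₀ B hT₀
  have hcard0 : (0 : ℝ) ≤ (boxJ J B).card := Nat.cast_nonneg _
  have hj0 : 1 ≤ Nat.log 2 T₀ := Nat.log_pos (by norm_num) hT₀
  have hsub : ((boxJ J B).filter fun a => ∃ T : ℕ, T₀ ≤ T ∧ T ^ 2 ≤ B ∧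
      (T : ℝ) ^ (-κ) < |(∑ p ∈ PRI T, Real.log p * t p a) / T|) ⊆
      ((Icc (Nat.log 2 T₀) (Nat.log 2 B)).filter fun j => 2 ^ (2 * j) ≤ B).biUnion fun j =>
      (boxJ J B).filter fun a => ∃ T : ℕ, 2 ^ j ≤ T ∧ T ≤ 2 ^ (j + 1) ∧
        ((2 : ℝ) ^ (j + 1)) ^ (-κ) < |(∑ p ∈ PRI T, Real.log p * t p a) / T| := by
    intro a ha
    obtain ⟨ha1, T, h1, h2, h3⟩ := Finset.mem_filter.1 ha
    have hT2 : 2 ≤ T := hT₀.trans h1
    have hT0 : (0 : ℝ) < T := by exact_mod_cast (by omega : 0 < T)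
    have h4 : 2 ^ Nat.log 2 T ≤ T := Nat.pow_log_le_self 2 (by omega)
    have h5 : T < 2 ^ (Nat.log 2 T + 1) := Nat.lt_pow_succ_log_self (by norm_num) T
    rw [Finset.mem_biUnion]
    refine ⟨Nat.log 2 T, Finset.mem_filter.2 ⟨Finset.mem_Icc.2 ⟨Nat.log_mono_right h1,
      Nat.log_mono_right ?_⟩, ?_⟩, Finset.mem_filter.2 ⟨ha1, T, h4, h5.le, ?_⟩⟩
    · nlinarith
    · calc 2 ^ (2 * Nat.log 2 T) = (2 ^ Nat.log 2 T) ^ 2 := by rw [mul_comm, pow_mul]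
        _ ≤ T ^ 2 := Nat.pow_le_pow_left h4 2
        _ ≤ B := h2
    · refine lt_of_le_of_lt ?_ h3
      apply Real.rpow_le_rpow_of_nonpos hT0 _ (by linarith)
      exact_mod_cast h5.le
  have h1 : (((boxJ J B).filter fun a => ∃ T : ℕ, T₀ ≤ T ∧ T ^ 2 ≤ B ∧
      (T : ℝ) ^ (-κ) < |(∑ p ∈ PRI T, Real.log p * t p a) / T|).card : ℝ) ≤
      ∑ j ∈ (Icc (Nat.log 2 T₀) (Nat.log 2 B)).filter fun j => 2 ^ (2 * j) ≤ B,
      (((boxJ J B).filter fun a => ∃ T : ℕ, 2 ^ j ≤ T ∧ T ≤ 2 ^ (j + 1) ∧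
        ((2 : ℝ) ^ (j + 1)) ^ (-κ) < |(∑ p ∈ PRI T, Real.log p * t p a) / T|).card : ℝ) := by
    have h2 := (Finset.card_le_card hsub).trans Finset.card_biUnion_le
    exact_mod_cast h2
  have h2 : ∀ j ∈ (Icc (Nat.log 2 T₀) (Nat.log 2 B)).filter fun j => 2 ^ (2 * j) ≤ B,
      (((boxJ J B).filter fun a => ∃ T : ℕ, 2 ^ j ≤ T ∧ T ≤ 2 ^ (j + 1) ∧
        ((2 : ℝ) ^ (j + 1)) ^ (-κ) < |(∑ p ∈ PRI T, Real.log p * t p a) / T|).card : ℝ) ≤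
      6 * |K2 n A C| * (boxJ J B).card *
        (((j : ℝ) + 2) ^ 4 * (((2 : ℝ) ^ (-((1 - 2 * κ) / 2))) ^ 2) ^ j) := by
    intro j hj
    obtain ⟨h3, h4⟩ := Finset.mem_filter.1 hj
    have h5 := block ht hκ0 hκ (hj0.trans (Finset.mem_Icc.1 h3).1) h4
    rw [hJ] at h5
    refine h5.trans ?_
    have h6 : 0 ≤ ((j : ℝ) + 2) ^ 4 * (((2 : ℝ) ^ (-((1 - 2 * κ) / 2))) ^ 2) ^ j := by positivity
    have h7 := le_abs_self (K2 n A C)
    calc _ ≤ 6 * |K2 n A C| * (((j : ℝ) + 2) ^ 4 * (((2 : ℝ) ^ (-((1 - 2 * κ) / 2))) ^ 2) ^ j) *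
        (boxJ J B).card := by
          apply mul_le_mul_of_nonneg_right _ hcard0
          apply mul_le_mul_of_nonneg_right _ h6
          linarith
      _ = _ := by ring
  refine h1.trans ((Finset.sum_le_sum h2).trans ?_)
  rw [← Finset.mul_sum]
  have h3 : ∑ j ∈ (Icc (Nat.log 2 T₀) (Nat.log 2 B)).filter (fun j => 2 ^ (2 * j) ≤ B),
      ((j : ℝ) + 2) ^ 4 * (((2 : ℝ) ^ (-((1 - 2 * κ) / 2))) ^ 2) ^ j ≤
      G * (2 * (T₀ : ℝ) ^ (-((1 - 2 * κ) / 2))) := by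
    refine (Finset.sum_le_sum_of_subset_of_nonneg (Finset.filter_subset _ _)
      fun j _ _ => by positivity).trans ((hG _ _).trans ?_)
    apply mul_le_mul_of_nonneg_left _ hG0
    exact qpow_le (σ := 1 - 2 * κ) (by linarith) (by linarith) hT₀
  refine (mul_le_mul_of_nonneg_left h3 (by positivity)).trans (le_of_eq ?_)
  ring

end Pool.Agent.Helper29.LP
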