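import Pool.Agent.Helper29.LG.Asm
import Pool.Agent.Helper29.LP.Mid

/-!
# Large `T`

The sums up to `T` are at most `T ^ (1 / 2 + ω)` for all `T` in the long range with `B < T ^ 2` at
once, outside a proportion which is a power of `B`.
-/

set_option autoImplicit false

namespace Pool.Agent.Helper29.LP

open Finset
open Pool.Agent.Helper28.TL (xl Mom moment_RML PS le_PS level_pos mean_one IS_xl)
open Pool.Agent.Helper28.TC (bx PR RM AA AA_nonneg RM_nonneg IS_le_RM PI_eq_PR)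
open Pool.Agent.Helper29.LG (Dat sum_dat)

section Level

variable {J : Type} [Fintype J] [DecidableEq J] (VT YT : ℕ → (J → ℤ) → ℝ)

open Classical in
/-- The bad vectors of a level. -/
noncomputable def LW (ω : ℝ) (B K j : ℕ) : Finset (J → ℤ) :=
  ((bx J B).filter fun a =>
    (1 / 16 : ℝ) * ((2 : ℝ) ^ j) ^ (1 + 2 * ω) < RM (xl VT K a) (j + 1) 0) ∪
  ((bx J B).filter fun a => ((2 : ℝ) ^ j) ^ (1 + ω) < PS YT K j a)

variable {VT YT} {K B : ℕ} {C D m : ℝ} (F : Mom VT K B C D) (hY : ∀ p a, 0 ≤ YT p a)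
  (hm0 : 0 ≤ m)
  (hm : ∀ p, p.Prime → p ≤ K → ∑ a ∈ bx J B, YT p a ≤ AA J B * m)

include F hY hm0 hm in
lemma card_LW {ω : ℝ} (hω : 0 ≤ ω) (j : ℕ) :
    ((LW VT YT ω B K j).card : ℝ) ≤ AA J B * (32 * (D + 4 * C ^ 2) + 2 * m) *
      (((j : ℝ) + 2) ^ 4 * (((2 : ℝ) ^ (-(ω / 2))) ^ 2) ^ j) := by
  classical
  have hAA := AA_nonneg J B
  have hD := F.hD
  have hC := F.hC
  have hj : (0 : ℝ) ≤ j := Nat.cast_nonneg j
  obtain ⟨u, hu⟩ : ∃ u : ℝ, u = (2 : ℝ) ^ j := ⟨_, rfl⟩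
  have hu0 : 0 < u := by rw [hu]; positivity
  have hu1 : 1 ≤ u := by rw [hu]; exact one_le_pow₀ (by norm_num)
  have e1 : (((2 : ℝ) ^ (-(ω / 2))) ^ 2) ^ j = u ^ (-ω) := by
    rw [hu, ← pow_mul, ← Real.rpow_natCast, ← Real.rpow_natCast (2 : ℝ) j,
      ← Real.rpow_mul (by norm_num), ← Real.rpow_mul (by norm_num)]
    congr 1
    push_cast
    ring
  rw [e1]
  have hw : u ^ (1 + ω) = u * u ^ ω := by
    rw [Real.rpow_add hu0, Real.rpow_one]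
  have hw2 : u ^ (1 + 2 * ω) = u * (u ^ ω * u ^ ω) := by
    rw [two_mul, Real.rpow_add hu0, Real.rpow_one, Real.rpow_add hu0]
  have hi : u ^ (-ω) = (u ^ ω)⁻¹ := Real.rpow_neg hu0.le ω
  have hx0 : 0 < u ^ ω := Real.rpow_pos_of_pos hu0 ω
  have hx1 : 1 ≤ u ^ ω := Real.one_le_rpow hu1 hω
  obtain ⟨x, hx⟩ : ∃ x, x = u ^ ω := ⟨_, rfl⟩
  rw [← hx] at hw hw2 hi hx0 hx1
  have hV : (((bx J B).filter fun a =>
      (1 / 16 : ℝ) * ((2 : ℝ) ^ j) ^ (1 + 2 * ω) < RM (xl VT K a) (j + 1) 0).card : ℝ) ≤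
      AA J B * (32 * (D + 4 * C ^ 2)) * (((j : ℝ) + 2) ^ 4 * u ^ (-ω)) := by
    have hθ : 0 < (1 / 16 : ℝ) * u ^ (1 + 2 * ω) := by rw [hw2]; positivity
    have h1 := moment_RML F (j + 1)
    have h2 : (((bx J B).filter fun a =>
        (1 / 16 : ℝ) * ((2 : ℝ) ^ j) ^ (1 + 2 * ω) < RM (xl VT K a) (j + 1) 0).card : ℝ) *
        ((1 / 16 : ℝ) * u ^ (1 + 2 * ω)) ≤ ∑ a ∈ bx J B, RM (xl VT K a) (j + 1) 0 := by
      rw [← nsmul_eq_mul, ← Finset.sum_const]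
      refine (Finset.sum_le_sum fun a ha => ?_).trans
        (Finset.sum_le_sum_of_subset_of_nonneg (Finset.filter_subset _ _)
          fun a _ _ => RM_nonneg _ _ _)
      have := (Finset.mem_filter.1 ha).2.le
      rwa [← hu] at this
    have h3 := h2.trans h1
    rw [← le_div_iff₀ hθ] at h3
    refine h3.trans ?_
    rw [div_le_iff₀ hθ, hw2, hi, pow_succ (2 : ℝ) j, ← hu]
    push_cast
    have e2 : AA J B * (32 * (D + 4 * C ^ 2)) * (((j : ℝ) + 2) ^ 4 * x⁻¹) *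
        (1 / 16 * (u * (x * x))) =
        AA J B * (D + 4 * C ^ 2) * (2 * u) * (((j : ℝ) + 2) ^ 4 * x) := by
      field_simp
      ring
    rw [e2]
    have h4 : ((j : ℝ) + 1 + 1) ^ 2 * ((j : ℝ) + 1) ^ 2 ≤ ((j : ℝ) + 2) ^ 4 * x := by
      have h5 : ((j : ℝ) + 1) ^ 2 ≤ ((j : ℝ) + 2) ^ 2 := by nlinarith
      have h6 : ((j : ℝ) + 1 + 1) ^ 2 * ((j : ℝ) + 1) ^ 2 ≤ ((j : ℝ) + 2) ^ 4 := by
        calc _ = ((j : ℝ) + 2) ^ 2 * ((j : ℝ) + 1) ^ 2 := by ring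
          _ ≤ ((j : ℝ) + 2) ^ 2 * ((j : ℝ) + 2) ^ 2 :=
            mul_le_mul_of_nonneg_left h5 (by positivity)
          _ = _ := by ring
      have h7 : 0 ≤ ((j : ℝ) + 2) ^ 4 := by positivity
      nlinarith
    calc ((j : ℝ) + 1 + 1) ^ 2 * (AA J B * ((D + 4 * C ^ 2) * (((j : ℝ) + 1) ^ 2 * (u * 2)))) =
        AA J B * (D + 4 * C ^ 2) * (2 * u) * (((j : ℝ) + 1 + 1) ^ 2 * ((j : ℝ) + 1) ^ 2) := by ring
      _ ≤ _ := mul_le_mul_of_nonneg_left h4 (by positivity)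
  have hP : (((bx J B).filter fun a => ((2 : ℝ) ^ j) ^ (1 + ω) < PS YT K j a).card : ℝ) ≤
      AA J B * (2 * m) * (((j : ℝ) + 2) ^ 4 * u ^ (-ω)) := by
    rw [← hu]
    have hθ : 0 < u ^ (1 + ω) := by rw [hw]; positivity
    have h3 := level_pos (y := YT) hY hθ (mean_one (j := j) hm0 hm)
    refine h3.trans ?_
    rw [div_le_iff₀ hθ, hw, hi, pow_succ (2 : ℝ) j, ← hu]
    have e2 : AA J B * (2 * m) * (((j : ℝ) + 2) ^ 4 * x⁻¹) * (u * x) =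
        AA J B * m * (2 * u) * ((j : ℝ) + 2) ^ 4 := by
      field_simp
    rw [e2]
    have h4 : ((j : ℝ) + 1) ≤ ((j : ℝ) + 2) ^ 4 := by
      have h5 : (1 : ℝ) ≤ (j : ℝ) + 2 := by linarith
      calc ((j : ℝ) + 1) ≤ (j : ℝ) + 2 := by linarith
        _ = ((j : ℝ) + 2) ^ 1 := by ring
        _ ≤ _ := pow_le_pow_right₀ h5 (by norm_num)
    calc AA J B * (m * (((j : ℝ) + 1) * (u * 2))) = AA J B * m * (2 * u) * ((j : ℝ) + 1) := by ring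
      _ ≤ _ := mul_le_mul_of_nonneg_left h4 (by positivity)
  have h4 : ((LW VT YT ω B K j).card : ℝ) ≤
      (((bx J B).filter fun a =>
        (1 / 16 : ℝ) * ((2 : ℝ) ^ j) ^ (1 + 2 * ω) < RM (xl VT K a) (j + 1) 0).card : ℝ) +
      (((bx J B).filter fun a => ((2 : ℝ) ^ j) ^ (1 + ω) < PS YT K j a).card : ℝ) := by
    unfold LW
    exact_mod_cast Finset.card_union_le _ _
  refine h4.trans ((add_le_add hV hP).trans (le_of_eq ?_))
  ring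

variable {tt BT : ℕ → (J → ℤ) → ℝ} {c0 c1 : ℝ} (Dt : Dat tt VT YT BT c0 c1)

include Dt in
/-- The inequality outside of the bad levels. -/
lemma good_of {ω : ℝ} (hω : 0 ≤ ω) {T : ℕ} {cb : ℝ} (hcb : 0 ≤ cb)
    (hT : 2 ≤ T) (hTK : T ≤ K)
    {a : J → ℤ} (ha : a ∈ bx J B) (hlv : a ∉ LW VT YT ω B K (Nat.log 2 T))
    (hbad : ∑ p ∈ PR T, Real.log p * BT p a ≤ cb * Real.log B)
    (hBT : B < T ^ 2) (hB : 1 ≤ B)
    (hL : (32 * cb + 8 * c0 + 8 * (c1 * cb)) * Real.log T ≤ (T : ℝ) ^ ω) :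
    |∑ p ∈ PR T, Real.log p * tt p a| ≤ (T : ℝ) ^ (1 / 2 + ω) := by
  classical
  have hT0 : (0 : ℝ) < T := by exact_mod_cast (by omega : 0 < T)
  have hT1 : (1 : ℝ) ≤ T := by exact_mod_cast (by omega : 1 ≤ T)
  have hB0 : (0 : ℝ) < B := by exact_mod_cast hB
  have hlT : 0 ≤ Real.log T := Real.log_nonneg hT1
  have hc0 := Dt.hc0
  have hc1 := Dt.hc1
  have hc1c : 0 ≤ c1 * cb := mul_nonneg hc1 hcb
  unfold LW at hlv
  rw [Finset.mem_union, not_or] at hlv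
  obtain ⟨hv1, hv3⟩ := hlv
  obtain ⟨j, hj⟩ : ∃ j, j = Nat.log 2 T := ⟨_, rfl⟩
  rw [← hj] at hv1 hv3
  have h2j : (2 : ℝ) ^ j ≤ T := by
    rw [hj]
    exact_mod_cast Nat.pow_log_le_self 2 (by omega)
  have h2j0 : (0 : ℝ) ≤ 2 ^ j := by positivity
  obtain ⟨x, hx⟩ : ∃ x, x = (T : ℝ) ^ ω := ⟨_, rfl⟩
  obtain ⟨s, hs⟩ : ∃ s, s = Real.sqrt T := ⟨_, rfl⟩
  have hs1 : 1 ≤ s := by rw [hs]; exact Real.one_le_sqrt.2 hT1
  have hs2 : s * s = T := by rw [hs]; exact Real.mul_self_sqrt hT0.le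
  have hx1 : 1 ≤ x := by rw [hx]; exact Real.one_le_rpow hT1 hω
  have hsx : (T : ℝ) ^ (1 / 2 + ω) = s * x := by
    rw [Real.rpow_add hT0, hs, hx, Real.sqrt_eq_rpow]
  have hsx2 : (T : ℝ) ^ (1 + 2 * ω) = (s * x) ^ 2 := by
    rw [two_mul, Real.rpow_add hT0, Real.rpow_add hT0, Real.rpow_one, ← hx, ← hs2]
    ring
  have hsx1 : (T : ℝ) ^ (1 + ω) = s * s * x := by
    rw [Real.rpow_add hT0, Real.rpow_one, ← hx, ← hs2]
  rw [← hx] at hL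
  have hV : |∑ p ∈ PR T, Real.log p * VT p a| ≤ 1 / 4 * (s * x) := by
    have h1 : RM (xl VT K a) (j + 1) 0 ≤ (1 / 16 : ℝ) * ((2 : ℝ) ^ j) ^ (1 + 2 * ω) := by
      by_contra hcon
      push Not at hcon
      exact hv1 (Finset.mem_filter.2 ⟨ha, hcon⟩)
    have h2 : T + 1 ≤ 2 ^ (j + 1) := by rw [hj]; exact Nat.lt_pow_succ_log_self (by norm_num) T
    have h3 := IS_le_RM (xl VT K a) (j + 1) 0 (T + 1) h2
    rw [IS_xl, PI_eq_PR hTK] at h3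
    have h4 : ((2 : ℝ) ^ j) ^ (1 + 2 * ω) ≤ (T : ℝ) ^ (1 + 2 * ω) :=
      Real.rpow_le_rpow h2j0 h2j (by linarith)
    rw [hsx2] at h4
    have h5 : (∑ p ∈ PR T, Real.log p * VT p a) ^ 2 ≤ (1 / 4 * (s * x)) ^ 2 := by
      calc _ ≤ _ := h3
        _ ≤ _ := h1
        _ ≤ 1 / 16 * (s * x) ^ 2 := mul_le_mul_of_nonneg_left h4 (by norm_num)
        _ = _ := by ring
    exact abs_le_of_sq_le_sq h5 (by positivity)
  have hYb : ∑ p ∈ PR T, Real.log p * YT p a ≤ s * s * x := by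
    have h1 : PS YT K j a ≤ ((2 : ℝ) ^ j) ^ (1 + ω) := by
      by_contra hcon
      push Not at hcon
      exact hv3 (Finset.mem_filter.2 ⟨ha, hcon⟩)
    have h2 := le_PS (y := YT) Dt.hY hTK a
    rw [← hj] at h2
    refine h2.trans (h1.trans ?_)
    rw [← hsx1]
    exact Real.rpow_le_rpow h2j0 h2j (by linarith)
  have hBd0 : 0 ≤ ∑ p ∈ PR T, Real.log p * BT p a := by
    apply Finset.sum_nonneg
    intro p hp
    have hpp : p.Prime := (Finset.mem_filter.1 hp).2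
    exact mul_nonneg (Real.log_nonneg (by exact_mod_cast hpp.one_le)) (Dt.hB p a)
  have hlB2 : Real.log B ≤ 2 * Real.log T := by
    have h1 : (B : ℝ) ≤ (T : ℝ) ^ 2 := by exact_mod_cast hBT.le
    have h2 := Real.log_le_log hB0 h1
    rw [Real.log_pow] at h2
    push_cast at h2
    exact h2
  obtain ⟨Bd, hBd⟩ : ∃ Bd, Bd = ∑ p ∈ PR T, Real.log p * BT p a := ⟨_, rfl⟩
  obtain ⟨Y, hYe⟩ : ∃ Y, Y = ∑ p ∈ PR T, Real.log p * YT p a := ⟨_, rfl⟩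
  have hsum := sum_dat Dt T a
  rw [← hBd, ← hYe, ← hs] at hsum
  rw [← hBd] at hbad hBd0
  rw [← hYe] at hYb
  obtain ⟨L, hLe⟩ : ∃ L, L = Real.log T := ⟨_, rfl⟩
  rw [← hLe] at hsum hL hlB2 hlT
  have hBd2 : Bd ≤ 2 * cb * L := by
    refine hbad.trans ?_
    calc cb * Real.log B ≤ cb * (2 * L) := mul_le_mul_of_nonneg_left hlB2 hcb
      _ = _ := by ring
  have hA1 : 0 ≤ cb * L := mul_nonneg hcb hlT
  have hA2 : 0 ≤ c0 * L := mul_nonneg hc0 hlT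
  have hA3 : 0 ≤ c1 * cb * L := mul_nonneg hc1c hlT
  have hL' : 32 * (cb * L) + 8 * (c0 * L) + 8 * (c1 * cb * L) ≤ x := by
    calc _ = (32 * cb + 8 * c0 + 8 * (c1 * cb)) * L := by ring
      _ ≤ x := hL
  have hs0 : 0 ≤ s := by linarith
  have hx0 : 0 ≤ x := by linarith
  have hg1 : c0 * (L * (2 * s)) ≤ 1 / 4 * (s * x) := by
    have h1 : 8 * (c0 * L) ≤ x := by linarith
    have h2 := mul_le_mul_of_nonneg_right h1 hs0
    nlinarith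
  have hxs : x ≤ s * x := by nlinarith
  have hg2 : c1 * Bd ≤ 1 / 4 * (s * x) := by
    have h1 : c1 * Bd ≤ c1 * (2 * cb * L) := mul_le_mul_of_nonneg_left hBd2 hc1
    have h2 : 8 * (c1 * cb * L) ≤ x := by linarith
    have h3 : c1 * (2 * cb * L) = 1 / 4 * (8 * (c1 * cb * L)) := by ring
    linarith
  have hg3 : Real.sqrt Bd * Real.sqrt Y ≤ 1 / 4 * (s * x) := by
    rw [← Real.sqrt_mul hBd0]
    apply Real.sqrt_le_iff.2
    refine ⟨by positivity, ?_⟩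
    rcases le_total Y 0 with hY0 | hY0
    · have : Bd * Y ≤ 0 := mul_nonpos_of_nonneg_of_nonpos hBd0 hY0
      exact this.trans (sq_nonneg _)
    · have h6 : Bd ≤ 1 / 16 * x := by linarith
      calc Bd * Y ≤ (1 / 16 * x) * (s * s * x) := mul_le_mul h6 hYb hY0 (by positivity)
        _ = _ := by ring
  rw [hsx]
  linarith

end Level

open Classical in
/-- The long range. -/
theorem longP {ω : ℝ} (hω : 0 < ω) (hω1 : ω ≤ 1 / 2) :
    ∃ G : ℝ, 0 ≤ G ∧ ∀ (J : Type) [Fintype J] [DecidableEq J] (tt VT YT BT : ℕ → (J → ℤ) → ℝ)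
      (K B : ℕ) (C D m c0 c1 cb : ℝ), Mom VT K B C D → 0 ≤ m →
      (∀ p, p.Prime → p ≤ K → ∑ a ∈ bx J B, YT p a ≤ AA J B * m) →
      Dat tt VT YT BT c0 c1 → 0 ≤ cb → ∀ Z : Finset (J → ℤ),
      (∀ a ∈ bx J B, a ∉ Z → ∀ T : ℕ, ∑ p ∈ PR T, Real.log p * BT p a ≤ cb * Real.log B) →
      1 ≤ B → (∀ T : ℕ, B < T ^ 2 →
        (32 * cb + 8 * c0 + 8 * (c1 * cb)) * Real.log T ≤ (T : ℝ) ^ ω) →
      (((bx J B).filter fun a => ∃ T : ℕ, B < T ^ 2 ∧ T ≤ K ∧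
        (T : ℝ) ^ (1 / 2 + ω) < |∑ p ∈ PR T, Real.log p * tt p a|).card : ℝ) ≤
        Z.card + 8 ^ Fintype.card J * (32 * (D + 4 * C ^ 2) + 2 * m) * G *
          (B : ℝ) ^ (-(ω / 4)) * (bx J B).card := by
  have hq1 : (2 : ℝ) ^ (-(ω / 2)) < 1 :=
    Real.rpow_lt_one_of_one_lt_of_neg (by norm_num) (by linarith)
  obtain ⟨G, hG0, hG⟩ := exists_geom (q := (2 : ℝ) ^ (-(ω / 2))) (by positivity) hq1
  refine ⟨2 * G, by positivity, ?_⟩
  intro J _ _ tt VT YT BT K B C D m c0 c1 cb F hm0 hm Dt hcb Z hbad hB hL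
  have hB0 : (0 : ℝ) < B := by exact_mod_cast hB
  obtain ⟨T₀, hT₀⟩ : ∃ T₀, T₀ = Nat.sqrt B + 1 := ⟨_, rfl⟩
  have hsq : 1 ≤ Nat.sqrt B := Nat.le_sqrt.2 (by omega)
  have hT₀2 : 2 ≤ T₀ := by omega
  have hBT₀ : (B : ℝ) ≤ (T₀ : ℝ) ^ 2 := by
    have h1 : B < (Nat.sqrt B + 1) * (Nat.sqrt B + 1) := Nat.lt_succ_sqrt B
    rw [← hT₀] at h1
    have h2 : B ≤ T₀ ^ 2 := by rw [sq]; exact h1.le
    exact_mod_cast h2
  have hT₀0 : (0 : ℝ) < T₀ := by exact_mod_cast (by omega : 0 < T₀)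
  obtain ⟨j0, hj0⟩ : ∃ j0, j0 = Nat.log 2 T₀ := ⟨_, rfl⟩
  have hsub : ((bx J B).filter fun a => ∃ T : ℕ, B < T ^ 2 ∧ T ≤ K ∧
      (T : ℝ) ^ (1 / 2 + ω) < |∑ p ∈ PR T, Real.log p * tt p a|) ⊆
      Z ∪ (Icc j0 (Nat.log 2 K)).biUnion fun j => LW VT YT ω B K j := by
    intro a ha
    obtain ⟨ha1, T, h2, h3, h4⟩ := Finset.mem_filter.1 ha
    have h1 : T₀ ≤ T := by
      have h5 : Nat.sqrt B < T := by
        rw [Nat.sqrt_lt, ← sq]
        exact h2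
      omega
    rw [Finset.mem_union]
    by_contra hcon
    rw [not_or] at hcon
    obtain ⟨hc1, hc2⟩ := hcon
    have hlv : a ∉ LW VT YT ω B K (Nat.log 2 T) := by
      intro h5
      apply hc2
      rw [Finset.mem_biUnion]
      refine ⟨Nat.log 2 T, ?_, h5⟩
      rw [Finset.mem_Icc, hj0]
      exact ⟨Nat.log_mono_right h1, Nat.log_mono_right h3⟩
    exact absurd h4 (not_lt.2 (good_of Dt hω.le hcb (hT₀2.trans h1) h3 ha1 hlv
      (hbad a ha1 hc1 T) h2 hB (hL T h2)))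
  have h1 : (((bx J B).filter fun a => ∃ T : ℕ, B < T ^ 2 ∧ T ≤ K ∧
      (T : ℝ) ^ (1 / 2 + ω) < |∑ p ∈ PR T, Real.log p * tt p a|).card : ℝ) ≤
      (Z.card : ℝ) + ∑ j ∈ Icc j0 (Nat.log 2 K), ((LW VT YT ω B K j).card : ℝ) := by
    have h2 := (Finset.card_le_card hsub).trans (Finset.card_union_le _ _)
    have h3 := h2.trans (add_le_add le_rfl Finset.card_biUnion_le)
    exact_mod_cast h3
  refine h1.trans (add_le_add le_rfl ?_)
  have hAA := AA_nonneg J B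
  have hD := F.hD
  refine (Finset.sum_le_sum fun j _ => card_LW F Dt.hY hm0 hm hω.le j).trans ?_
  rw [← Finset.mul_sum]
  have h4 := hG j0 (Nat.log 2 K)
  have h5 : ((2 : ℝ) ^ (-(ω / 2))) ^ j0 ≤ 2 * (B : ℝ) ^ (-(ω / 4)) := by
    rw [hj0]
    refine (qpow_le hω.le (by linarith) hT₀2).trans ?_
    apply mul_le_mul_of_nonneg_left _ (by norm_num)
    have h6 : (B : ℝ) ^ (ω / 4) ≤ (T₀ : ℝ) ^ (ω / 2) := by
      calc (B : ℝ) ^ (ω / 4) ≤ ((T₀ : ℝ) ^ 2) ^ (ω / 4) :=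
            Real.rpow_le_rpow hB0.le hBT₀ (by linarith)
        _ = (T₀ : ℝ) ^ (ω / 2) := by
            rw [← Real.rpow_natCast, ← Real.rpow_mul hT₀0.le]
            congr 1
            push_cast
            ring
    rw [Real.rpow_neg hT₀0.le, Real.rpow_neg hB0.le]
    exact inv_anti₀ (Real.rpow_pos_of_pos hB0 _) h6
  have h6 : 0 ≤ AA J B * (32 * (D + 4 * C ^ 2) + 2 * m) := by positivity
  refine (mul_le_mul_of_nonneg_left (h4.trans (mul_le_mul_of_nonneg_left h5 hG0)) h6).trans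
    (le_of_eq ?_)
  unfold AA
  ring

end Pool.Agent.Helper29.LP
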