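import Pool.Agent.Helper29.LP.Base

/-!
# Small `T`

For `T` between `(log B) ^ α` and a small power of `B` the moments of order about
`log B / log T` show that the average is at most `T ^ (- κ)` outside a proportion which is a
power of `B`, if `α > 1 / (1 - 2 κ)`.
-/

set_option autoImplicit false

namespace Pool.Agent.Helper29.LP

open Finset
open Pool.Agent.Helper29.TT
open Pool.Agent.Helper25.FM (FamB dev1)

lemma exists_log_le (K : ℝ) {σ : ℝ} (hσ : 0 < σ) :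
    ∃ X : ℝ, 2 ≤ X ∧ ∀ x : ℝ, X ≤ x → K * Real.log x ≤ x ^ σ := by
  have h1 := (isLittleO_log_rpow_atTop hσ).bound
    (show (0 : ℝ) < 1 / (|K| + 1) by positivity)
  obtain ⟨X, hX⟩ := Filter.eventually_atTop.1 h1
  refine ⟨max X 2, le_max_right _ _, fun x hx => ?_⟩
  have hx2 : 2 ≤ x := (le_max_right _ _).trans hx
  have h2 := hX x ((le_max_left _ _).trans hx)
  have hl : 0 ≤ Real.log x := Real.log_nonneg (by linarith)
  have hp : 0 ≤ x ^ σ := Real.rpow_nonneg (by linarith) _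
  rw [Real.norm_eq_abs, Real.norm_eq_abs, abs_of_nonneg hl, abs_of_nonneg hp, one_div,
    inv_mul_eq_div, le_div_iff₀ (by positivity)] at h2
  have h3 : K ≤ |K| := le_abs_self K
  nlinarith

section One

variable {J : Type} [Fintype J] [DecidableEq J] {t : ℕ → (J → ℤ) → ℝ} {L : ℝ}

open Classical in
/-- The deviation for one `T`. -/
lemma one (ht : FamB t L) {T B : ℕ} {κ α τ : ℝ} (hα : 0 < α) (hτ : 1 / α = 1 - 2 * κ - 2 * τ)
    (hτ0 : 0 < τ) (hT : 2 ≤ T) (hTB : 2 * Real.log T ≤ Real.log B)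
    (hBT : Real.log B ^ α ≤ T) (hK : 12 * (L ^ 2 + 1) * Real.log T ≤ (T : ℝ) ^ τ) (hB : 1 ≤ B) :
    (((boxJ J B).filter fun a =>
      (T : ℝ) ^ (-κ) / 2 < |(∑ p ∈ PRI T, Real.log p * t p a) / T|).card : ℝ) ≤
      8 ^ Fintype.card J * (boxJ J B).card * (2 * (B : ℝ) ^ (-(τ / 4))) := by
  have hT0 : (0 : ℝ) < T := by exact_mod_cast (by omega : 0 < T)
  have hB0 : (0 : ℝ) < B := by exact_mod_cast hB
  have hlT : 0 < Real.log T := Real.log_pos (by exact_mod_cast (by omega : 1 < T))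
  have hlB : 0 ≤ Real.log B := by linarith
  obtain ⟨x, hx⟩ : ∃ x, x = Real.log B / (2 * Real.log T) := ⟨_, rfl⟩
  have hx1 : 1 ≤ x := by
    rw [hx, le_div_iff₀ (by positivity)]
    linarith
  obtain ⟨k, hk⟩ : ∃ k, k = ⌊x⌋₊ := ⟨_, rfl⟩
  have hk1 : 1 ≤ k := by
    rw [hk]
    exact Nat.le_floor (by exact_mod_cast hx1)
  have hkx : (k : ℝ) ≤ x := by rw [hk]; exact Nat.floor_le (by linarith)
  have hxk : x / 2 ≤ k := by
    have h1 : x < k + 1 := by rw [hk]; exact Nat.lt_floor_add_one x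
    have h2 : (1 : ℝ) ≤ k := by exact_mod_cast hk1
    linarith
  have hpow : T ^ (2 * k) ≤ B := by
    have h1 : ((T : ℝ) ^ (2 * k)) ≤ B := by
      rw [← Real.log_le_log_iff (by positivity) hB0, Real.log_pow]
      push_cast
      have h2 : (k : ℝ) * (2 * Real.log T) ≤ Real.log B := by
        rw [← le_div_iff₀ (by positivity), ← hx]
        exact hkx
      linarith
    exact_mod_cast h1
  have hε : 0 < (T : ℝ) ^ (-κ) / 2 := by positivity
  have h1 := dev1 ht hT hk1 hpow hε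
  refine h1.trans ?_
  apply mul_le_mul_of_nonneg_left _ (by positivity)
  apply mul_le_mul_of_nonneg_left _ (by norm_num)
  -- the base
  have hk0 : (0 : ℝ) < k := by exact_mod_cast hk1
  obtain ⟨y, hy⟩ : ∃ y, y = 6 * k * (L ^ 2 + 1) * Real.log T ^ 2 /
    (((T : ℝ) ^ (-κ) / 2) ^ 2 * T) := ⟨_, rfl⟩
  rw [← hy]
  have hy0 : 0 ≤ y := by rw [hy]; positivity
  have e1 : ((T : ℝ) ^ (-κ) / 2) ^ 2 * T = (T : ℝ) ^ (1 - 2 * κ) / 4 := by
    have e2 : (T : ℝ) ^ (1 - 2 * κ) = ((T : ℝ) ^ (-κ)) ^ 2 * T := by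
      rw [← Real.rpow_natCast, ← Real.rpow_mul hT0.le]
      conv_rhs => rw [← Real.rpow_one (T : ℝ)]
      rw [← Real.rpow_mul hT0.le, ← Real.rpow_add hT0]
      congr 1
      push_cast
      ring
    rw [e2]
    ring
  have hlog : Real.log B ≤ (T : ℝ) ^ (1 / α) := by
    have h2 := Real.rpow_le_rpow (Real.rpow_nonneg hlB α) hBT (show 0 ≤ 1 / α by positivity)
    rwa [← Real.rpow_mul hlB, mul_one_div_cancel hα.ne', Real.rpow_one] at h2
  have hyT : y ≤ (T : ℝ) ^ (-τ) := by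
    have hP : 0 < (T : ℝ) ^ (1 - 2 * κ) := Real.rpow_pos_of_pos hT0 _
    rw [hy, e1, div_le_iff₀ (by positivity)]
    have h2 : (k : ℝ) * Real.log T ^ 2 ≤ Real.log B * Real.log T / 2 := by
      have h3 : (k : ℝ) * (2 * Real.log T) ≤ Real.log B := by
        rw [← le_div_iff₀ (by positivity), ← hx]
        exact hkx
      nlinarith
    have h4 : (T : ℝ) ^ (-τ) * ((T : ℝ) ^ (1 - 2 * κ) / 4) =
        (T : ℝ) ^ (1 / α) * (T : ℝ) ^ τ / 4 := by
      rw [← mul_div_assoc, ← Real.rpow_add hT0, ← Real.rpow_add hT0, hτ]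
      congr 2
      ring
    rw [h4]
    have h5 : 0 ≤ L ^ 2 + 1 := by positivity
    have h6 : 0 ≤ (T : ℝ) ^ (1 / α) := Real.rpow_nonneg hT0.le _
    have h7 : Real.log B * Real.log T ≤ (T : ℝ) ^ (1 / α) * Real.log T :=
      mul_le_mul_of_nonneg_right hlog hlT.le
    calc 6 * k * (L ^ 2 + 1) * Real.log T ^ 2 = 6 * (L ^ 2 + 1) * (k * Real.log T ^ 2) := by ring
      _ ≤ 6 * (L ^ 2 + 1) * (Real.log B * Real.log T / 2) :=
          mul_le_mul_of_nonneg_left h2 (by positivity)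
      _ = 3 * (L ^ 2 + 1) * (Real.log B * Real.log T) := by ring
      _ ≤ 3 * (L ^ 2 + 1) * ((T : ℝ) ^ (1 / α) * Real.log T) :=
          mul_le_mul_of_nonneg_left h7 (by positivity)
      _ = (T : ℝ) ^ (1 / α) * (12 * (L ^ 2 + 1) * Real.log T) / 4 := by ring
      _ ≤ (T : ℝ) ^ (1 / α) * (T : ℝ) ^ τ / 4 := by
          apply div_le_div_of_nonneg_right _ (by norm_num)
          exact mul_le_mul_of_nonneg_left hK h6
  calc y ^ k ≤ ((T : ℝ) ^ (-τ)) ^ k := pow_le_pow_left₀ hy0 hyT k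
    _ = (T : ℝ) ^ (-τ * k) := by rw [← Real.rpow_natCast, ← Real.rpow_mul hT0.le]
    _ ≤ (T : ℝ) ^ (-τ * (x / 2)) := by
        apply Real.rpow_le_rpow_of_exponent_le
        · exact_mod_cast (by omega : 1 ≤ T)
        · nlinarith
    _ = (B : ℝ) ^ (-(τ / 4)) := by
        rw [Real.rpow_def_of_pos hT0, Real.rpow_def_of_pos hB0, hx]
        congr 1
        field_simp
        ring

end One

open Classical in
/-- Small `T`. -/
theorem small (n : ℕ) (A C L : ℝ) {κ α : ℝ} (hκ : κ < 1 / 2)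
    (hα : 1 / (1 - 2 * κ) < α) :
    ∃ η C' c : ℝ, 0 < η ∧ 0 < c ∧ 0 ≤ C' ∧ ∀ (J : Type) [Fintype J] [DecidableEq J],
      Fintype.card J = n → ∀ t : ℕ → (J → ℤ) → ℝ, Fam t A C →
      (∀ p, p.Prime → ∀ a, |t p a| ≤ L) → ∀ B : ℕ, 1 ≤ B →
      (((boxJ J B).filter fun a => ∃ T : ℕ, Real.log B ^ α ≤ T ∧ (T : ℝ) ≤ (B : ℝ) ^ η ∧
        (T : ℝ) ^ (-κ) < |(∑ p ∈ PRI T, Real.log p * t p a) / T|).card : ℝ) ≤
        C' * (B : ℝ) ^ (-c) * (boxJ J B).card := by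
  have he0 : 0 < 1 - 2 * κ := by linarith
  have hα0 : 0 < α := lt_trans (by positivity) hα
  obtain ⟨τ, hτ⟩ : ∃ τ, τ = (1 - 2 * κ - 1 / α) / 2 := ⟨_, rfl⟩
  have hτ0 : 0 < τ := by
    rw [hτ]
    have h1 : 1 / α < 1 - 2 * κ := by
      rw [div_lt_iff₀ hα0]
      rw [div_lt_iff₀ he0] at hα
      linarith
    linarith
  have hτ' : 1 / α = 1 - 2 * κ - 2 * τ := by rw [hτ]; ring
  obtain ⟨X1, hX1, hX1'⟩ := exists_log_le (12 * ((2 * L) ^ 2 + 1)) hτ0
  obtain ⟨X2, hX2, hX2'⟩ := exists_log_le (4 * C) (show 0 < 1 / 2 - κ by linarith)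
  obtain ⟨T1, hT1⟩ : ∃ T1, T1 = max X1 X2 := ⟨_, rfl⟩
  have hT12 : 2 ≤ T1 := hX1.trans (by rw [hT1]; exact le_max_left _ _)
  obtain ⟨B1, hB1⟩ : ∃ B1, B1 = Real.exp (T1 ^ (1 / α)) := ⟨_, rfl⟩
  have hB10 : 0 < B1 := by rw [hB1]; exact Real.exp_pos _
  refine ⟨min (1 / 2) (τ / 8), 2 * 8 ^ n + B1 ^ (τ / 8), τ / 8, by positivity, by positivity,
    by positivity, ?_⟩
  intro J _ _ hJ t ht hb B hB
  have hBR : (1 : ℝ) ≤ B := by exact_mod_cast hB
  have hB0 : (0 : ℝ) < B := by linarith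
  have hlB : 0 ≤ Real.log B := Real.log_nonneg hBR
  have hcard0 : (0 : ℝ) ≤ (boxJ J B).card := Nat.cast_nonneg _
  have hBc : 0 < (B : ℝ) ^ (-(τ / 8)) := Real.rpow_pos_of_pos hB0 _
  rcases lt_or_ge (B : ℝ) B1 with hlt | hge
  · have h1 : (((boxJ J B).filter fun a => ∃ T : ℕ, Real.log B ^ α ≤ T ∧
        (T : ℝ) ≤ (B : ℝ) ^ (min (1 / 2) (τ / 8)) ∧
        (T : ℝ) ^ (-κ) < |(∑ p ∈ PRI T, Real.log p * t p a) / T|).card : ℝ) ≤
        (boxJ J B).card := by exact_mod_cast Finset.card_filter_le _ _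
    refine h1.trans ?_
    have h2 : 1 ≤ B1 ^ (τ / 8) * (B : ℝ) ^ (-(τ / 8)) := by
      rw [Real.rpow_neg hB0.le, ← div_eq_mul_inv, le_div_iff₀ (Real.rpow_pos_of_pos hB0 _), one_mul]
      exact Real.rpow_le_rpow hB0.le hlt.le (by positivity)
    have h3 : 0 ≤ 2 * 8 ^ n * (B : ℝ) ^ (-(τ / 8)) := by positivity
    nlinarith
  have hL0 : 0 ≤ L := by
    have h1 := hb 2 Nat.prime_two 0
    exact (abs_nonneg _).trans h1
  have hfam := famB ht hL0 hb
  -- for `T` in the range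
  have hTX : ∀ T : ℕ, Real.log B ^ α ≤ T → T1 ≤ T := by
    intro T hT
    refine le_trans ?_ hT
    have h1 : T1 ^ (1 / α) ≤ Real.log B := by
      rw [Real.le_log_iff_exp_le hB0, ← hB1]
      exact hge
    have h2 := Real.rpow_le_rpow (by positivity) h1 hα0.le
    rwa [← Real.rpow_mul (by linarith), one_div_mul_cancel hα0.ne', Real.rpow_one] at h2
  have hsub : ((boxJ J B).filter fun a => ∃ T : ℕ, Real.log B ^ α ≤ T ∧
      (T : ℝ) ≤ (B : ℝ) ^ (min (1 / 2) (τ / 8)) ∧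
      (T : ℝ) ^ (-κ) < |(∑ p ∈ PRI T, Real.log p * t p a) / T|) ⊆
      ((Icc 1 ⌊(B : ℝ) ^ (min (1 / 2) (τ / 8))⌋₊).filter fun T : ℕ =>
        Real.log B ^ α ≤ T ∧ (T : ℝ) ≤ (B : ℝ) ^ (min (1 / 2) (τ / 8))).biUnion fun T : ℕ =>
      (boxJ J B).filter fun a => (T : ℝ) ^ (-κ) / 2 <
        |(∑ p ∈ PRI T, Real.log p * (t p a - mp t p)) / T| := by
    intro a ha
    obtain ⟨ha1, T, h1, h2, h3⟩ := Finset.mem_filter.1 ha
    have hT1' := hTX T h1
    have hTR : (2 : ℝ) ≤ T := hT12.trans hT1'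
    have hT0 : (0 : ℝ) < T := by linarith
    have hlT : 0 ≤ Real.log T := Real.log_nonneg (by linarith)
    rw [Finset.mem_biUnion]
    refine ⟨T, Finset.mem_filter.2 ⟨Finset.mem_Icc.2 ⟨?_, Nat.le_floor h2⟩, h1, h2⟩,
      Finset.mem_filter.2 ⟨ha1, ?_⟩⟩
    · have : (1 : ℝ) ≤ T := by linarith
      exact_mod_cast this
    · have h4 : (∑ p ∈ PRI T, Real.log p * t p a) / T =
          (∑ p ∈ PRI T, Real.log p * (t p a - mp t p)) / T +
            (∑ p ∈ PRI T, Real.log p * mp t p) / T := by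
        rw [← add_div, ← Finset.sum_add_distrib]
        congr 1
        exact Finset.sum_congr rfl fun p _ => by ring
      have h5 : |(∑ p ∈ PRI T, Real.log p * mp t p) / T| ≤ (T : ℝ) ^ (-κ) / 2 := by
        rw [abs_div, abs_of_pos hT0, div_le_iff₀ hT0]
        refine (sum_log_mp ht T).trans ?_
        have h6 := hX2' T ((le_max_right X1 X2).trans (by rw [← hT1]; exact hT1'))
        have h7 : (T : ℝ) ^ (-κ) * T = (T : ℝ) ^ (1 / 2 - κ) * Real.sqrt T := by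
          rw [Real.sqrt_eq_rpow]
          conv_lhs => rw [← Real.rpow_one (T : ℝ)]
          rw [← Real.rpow_mul hT0.le, ← Real.rpow_add hT0, ← Real.rpow_add hT0]
          congr 1
          ring
        have h8 : C * (Real.log T * (2 * Real.sqrt T)) = (4 * C * Real.log T) * Real.sqrt T / 2 := by
          ring
        rw [h8, div_mul_eq_mul_div, h7]
        apply div_le_div_of_nonneg_right _ (by norm_num)
        exact mul_le_mul_of_nonneg_right h6 (Real.sqrt_nonneg _)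
      rw [h4] at h3
      have h9 := abs_add_le ((∑ p ∈ PRI T, Real.log p * (t p a - mp t p)) / T)
        ((∑ p ∈ PRI T, Real.log p * mp t p) / T)
      linarith
  have h1 : (((boxJ J B).filter fun a => ∃ T : ℕ, Real.log B ^ α ≤ T ∧
      (T : ℝ) ≤ (B : ℝ) ^ (min (1 / 2) (τ / 8)) ∧
      (T : ℝ) ^ (-κ) < |(∑ p ∈ PRI T, Real.log p * t p a) / T|).card : ℝ) ≤
      ∑ T ∈ (Icc 1 ⌊(B : ℝ) ^ (min (1 / 2) (τ / 8))⌋₊).filter fun T : ℕ =>
        Real.log B ^ α ≤ T ∧ (T : ℝ) ≤ (B : ℝ) ^ (min (1 / 2) (τ / 8)),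
      (((boxJ J B).filter fun a => (T : ℝ) ^ (-κ) / 2 <
        |(∑ p ∈ PRI T, Real.log p * (t p a - mp t p)) / T|).card : ℝ) := by
    have h2 := (Finset.card_le_card hsub).trans Finset.card_biUnion_le
    exact_mod_cast h2
  have h2 : ∀ T ∈ (Icc 1 ⌊(B : ℝ) ^ (min (1 / 2) (τ / 8))⌋₊).filter fun T : ℕ =>
        Real.log B ^ α ≤ T ∧ (T : ℝ) ≤ (B : ℝ) ^ (min (1 / 2) (τ / 8)),
      (((boxJ J B).filter fun a => (T : ℝ) ^ (-κ) / 2 <
        |(∑ p ∈ PRI T, Real.log p * (t p a - mp t p)) / T|).card : ℝ) ≤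
        8 ^ n * (boxJ J B).card * (2 * (B : ℝ) ^ (-(τ / 4))) := by
    intro T hT
    obtain ⟨-, h3, h4⟩ := Finset.mem_filter.1 hT
    have hT1' := hTX T h3
    have hTR : (2 : ℝ) ≤ T := hT12.trans hT1'
    have hT0 : (0 : ℝ) < T := by linarith
    have h5 : 2 * Real.log T ≤ Real.log B := by
      have h6 := Real.log_le_log hT0 h4
      rw [Real.log_rpow hB0] at h6
      have h7 : min (1 / 2) (τ / 8) * Real.log B ≤ 1 / 2 * Real.log B :=
        mul_le_mul_of_nonneg_right (min_le_left _ _) hlB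
      linarith
    rw [← hJ]
    exact one hfam hα0 hτ' hτ0 (by exact_mod_cast hTR) h5 h3
      (hX1' T ((le_max_left X1 X2).trans (by rw [← hT1]; exact hT1'))) hB
  refine h1.trans ((Finset.sum_le_sum h2).trans ?_)
  rw [Finset.sum_const, nsmul_eq_mul]
  have h3 : ((((Icc 1 ⌊(B : ℝ) ^ (min (1 / 2) (τ / 8))⌋₊).filter fun T : ℕ =>
        Real.log B ^ α ≤ T ∧ (T : ℝ) ≤ (B : ℝ) ^ (min (1 / 2) (τ / 8))).card : ℕ) : ℝ) ≤
        (B : ℝ) ^ (τ / 8) := by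
    have h4 : (((Icc 1 ⌊(B : ℝ) ^ (min (1 / 2) (τ / 8))⌋₊).filter fun T : ℕ =>
        Real.log B ^ α ≤ T ∧ (T : ℝ) ≤ (B : ℝ) ^ (min (1 / 2) (τ / 8))).card) ≤
        ⌊(B : ℝ) ^ (min (1 / 2) (τ / 8))⌋₊ := by
      refine (Finset.card_filter_le _ _).trans ?_
      rw [Nat.card_Icc]
      omega
    refine (Nat.cast_le.2 h4).trans ((Nat.floor_le (by positivity)).trans ?_)
    exact Real.rpow_le_rpow_of_exponent_le hBR (min_le_right _ _)
  have h4 : 0 ≤ 8 ^ n * ((boxJ J B).card : ℝ) * (2 * (B : ℝ) ^ (-(τ / 4))) := by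
    have h41 : 0 ≤ (B : ℝ) ^ (-(τ / 4)) := Real.rpow_nonneg hB0.le _
    exact mul_nonneg (mul_nonneg (pow_nonneg (by norm_num) n) hcard0)
      (mul_nonneg (by norm_num) h41)
  refine (mul_le_mul_of_nonneg_right h3 h4).trans ?_
  have h5 : (B : ℝ) ^ (τ / 8) * (B : ℝ) ^ (-(τ / 4)) = (B : ℝ) ^ (-(τ / 8)) := by
    rw [← Real.rpow_add hB0]
    congr 1
    ring
  have h6 : (B : ℝ) ^ (τ / 8) * (8 ^ n * ((boxJ J B).card : ℝ) * (2 * (B : ℝ) ^ (-(τ / 4)))) =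
      2 * 8 ^ n * ((B : ℝ) ^ (τ / 8) * (B : ℝ) ^ (-(τ / 4))) * (boxJ J B).card := by ring
  rw [h6, h5]
  apply mul_le_mul_of_nonneg_right _ hcard0
  apply mul_le_mul_of_nonneg_right _ hBc.le
  have h7 : 0 ≤ B1 ^ (τ / 8) := Real.rpow_nonneg hB10.le _
  linarith

end Pool.Agent.Helper29.LP
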