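import Pool.Agent.Helper29.LP.Long
import Pool.Agent.Helper29.LP.Small
import Pool.Agent.Helper29.LG.All

/-!
# Power savings for the sections of a threefold
-/

set_option autoImplicit false

namespace Pool.Agent.Helper29.LP

open Finset MvPolynomial
open Pool.Agent.Helper29.LN Pool.Agent.Helper29.LG
open Pool.Agent.Helper28.TC (bx PR)

section Long

variable {R : Type} [CommRing R] {r c k s d : ℕ}

open Classical in
/-- The long range with a power saving, from the moment estimates. -/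
theorem long_of_pow [IsDomain R] (b : Module.Basis (Fin d) ℤ R)
    {h : Fin c → MvPolynomial (Fin (r + 4)) R}
    {g : Fin k → MvPolynomial (Fin (r + 4)) R} {δ : Fin c → ℕ}
    (hh : ∀ i, (h i).IsHomogeneous (δ i)) {e : ℕ} (hg : ∀ i, (g i).IsHomogeneous e)
    (hs : 1 ≤ s) {C₀ : ℝ} (hC : 0 ≤ C₀)
    (hW : ∀ p : ℕ, p.Prime → ∀ φ : R →+* ZMod p,
      |points φ (Set.range h) - (p : ℝ) ^ 3| ≤ C₀ * (p : ℝ) ^ 2)
    (hZ : ∀ p : ℕ, p.Prime → ∀ φ : R →+* ZMod p,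
      points φ (Set.range h ∪ Set.range g) ≤ C₀ * p)
    {ψ : R →+* ℂ} (hψ : Function.Injective ψ)
    {a₀ : Fin k × Mono (r + 4) s → R} (hS : SmoothSection ψ h (form g a₀))
    {m : ℕ} {C₁ C₂ : ℝ} (hE : ∀ (M H K : ℕ) [NeZero M], K ^ 2 * (s * H) ^ m < M ^ m → 1 ≤ H →
      (∀ p, p.Prime → p ≤ K → p ∣ M) → Est (s := s) h g b M H K C₁ C₂)
    {κ : ℝ} (hκ0 : 0 ≤ κ) (hκ : κ < 1 / 2) :
    ∃ C B₀ : ℝ, 0 ≤ C ∧ ∀ w : ∀ p : ℕ, (R →+* ZMod p) → ℝ, (∀ p φ, |w p φ| ≤ 1) →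
      ∀ B : ℕ, B₀ ≤ B →
      (((box (r + 4) k s d B).filter fun a => ∃ T : ℕ, B < T ^ 2 ∧
        s ^ m * T ^ 2 < (8 * B) ^ m ∧ (T : ℝ) ^ (-κ) <
          |average w T h (form g (coord b a)) - expectAverage w T h g|).card : ℝ) ≤
        C * (B : ℝ) ^ (-((1 / 2 - κ) / 4)) * (box (r + 4) k s d B).card := by
  have hint : Algebra.IsIntegral ℤ R := by
    have : Module.Finite ℤ R := Module.Finite.of_basis b
    infer_instance
  obtain ⟨ω, hω⟩ : ∃ ω, ω = 1 / 2 - κ := ⟨_, rfl⟩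
  have hω0 : 0 < ω := by linarith
  have hω1 : ω ≤ 1 / 2 := by linarith
  rw [← hω]
  obtain ⟨G, hG0, hG⟩ := longP hω0 hω1
  obtain ⟨D, N, hN, q, hq⟩ := exists_cert h g hψ hS
  obtain ⟨B1, hB1⟩ := bad_primes (s := s) h g q b hh hg
  obtain ⟨cb, hcb⟩ : ∃ cb, cb = CB r D d := ⟨_, rfl⟩
  have hcb0 : 0 ≤ cb := by rw [hcb]; exact CB_nonneg
  obtain ⟨X0, hX02, hX0⟩ := exists_log_le (32 * cb + 8 * (d * C₀) + 8 * ((2 * C₀ + 1) * cb)) hω0
  obtain ⟨cz, hcz⟩ : ∃ cz : ℝ, cz = ((d * (Fintype.card (Mono (r + 4) D) * 1) : ℕ) : ℝ) := ⟨_, rfl⟩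
  have hcz0 : 0 ≤ cz := by rw [hcz]; exact Nat.cast_nonneg _
  have hC2 : 0 ≤ C₂ := by
    have hne : NeZero (s * 1 + 1) := ⟨by omega⟩
    by_cases hm : m = 0
    · have := (hE (s * 1 + 1) 1 0 (by rw [hm]; norm_num) le_rfl (fun p hp hp0 => by
        have := hp.pos; omega)).h2
      exact this
    · have := (hE (s * 1 + 1) 1 0 (by
        rw [zero_pow two_ne_zero, zero_mul]; positivity) le_rfl (fun p hp hp0 => by
        have := hp.pos; omega)).h2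
      exact this
  obtain ⟨cl, hcl⟩ : ∃ cl : ℝ, cl = 8 ^ Fintype.card ((Fin k × Mono (r + 4) s) × Fin d) *
    (32 * (4 * C₂ + 4 * (d * Real.sqrt C₁) ^ 2) + 2 * (d * (4 * C₂))) * G := ⟨_, rfl⟩
  have hcl0 : 0 ≤ cl := by rw [hcl]; positivity
  refine ⟨cz + cl, max (max B1 1) (X0 ^ 2), by positivity, fun w hw B hB => ?_⟩
  have hBB1 : B1 ≤ B := by
    exact_mod_cast ((le_max_left _ _).trans (le_max_left _ _)).trans hB
  have hB1' : 1 ≤ B := by
    exact_mod_cast ((le_max_right _ _).trans (le_max_left _ _)).trans hB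
  have hBX : X0 ^ 2 ≤ B := (le_max_right _ _).trans hB
  have hBR : (1 : ℝ) ≤ B := by exact_mod_cast hB1'
  have hB0 : (0 : ℝ) < B := by linarith
  obtain ⟨K, hK1, hK2⟩ := exists_K (m := m) hs hB1'
  obtain ⟨H, hH1, hHd⟩ : ∃ H : ℕ, 1 ≤ H ∧ ∀ p, p.Prime → p ≤ K → p ∣ H :=
    ⟨Nat.factorial K, Nat.factorial_pos K, fun p hp hpK => Nat.dvd_factorial hp.pos hpK⟩
  obtain ⟨M, hM⟩ : ∃ M : ℕ, M = 8 * B * H := ⟨_, rfl⟩
  have hM0 : 0 < M := by rw [hM]; positivity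
  have : NeZero M := ⟨hM0.ne'⟩
  have hdvd : ∀ p, p.Prime → p ≤ K → p ∣ M := by
    intro p hp hpK
    rw [hM]
    exact Dvd.dvd.mul_left (hHd p hp hpK) _
  have hcond : K ^ 2 * (s * H) ^ m < M ^ m := by
    rw [hM, mul_pow, mul_pow (8 * B)]
    calc K ^ 2 * (s ^ m * H ^ m) = (s ^ m * K ^ 2) * H ^ m := by ring
      _ < (8 * B) ^ m * H ^ m := Nat.mul_lt_mul_of_pos_right hK1 (pow_pos hH1 m)
  have E := hE M H K hcond hH1 hdvd
  have F := mom E hM hB1' hH1 hdvd hw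
  have hY := mean_YT E hM hB1' hH1 hdvd
  have Dt := dat (s := s) h g b hC hW hZ hw
  have h1 := hG ((Fin k × Mono (r + 4) s) × Fin d) _ _ _ _ K B _ _ _ _ _ cb F (by positivity)
    hY Dt hcb0
    ((bx ((Fin k × Mono (r + 4) s) × Fin d) B).filter fun a => ¬ ND h g q b a ≠ 0)
    (fun a ha haZ T => by
      rw [hcb]
      apply hB1 B hBB1 a ha
      by_contra h5
      exact haZ (Finset.mem_filter.2 ⟨ha, not_not.2 h5⟩))
    hB1' (fun T hT => by
      apply hX0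
      have h5 : X0 ^ 2 ≤ (T : ℝ) ^ 2 := hBX.trans (by exact_mod_cast hT.le)
      exact le_of_sq_le_sq h5 (Nat.cast_nonneg T))
  rw [← hcl] at h1
  have h2 := rare (s := s) h g q b hN hq B hB1'
  rw [← hcz] at h2
  obtain ⟨X, hX⟩ : ∃ X : ℝ, X = ((box (r + 4) k s d B).card : ℝ) := ⟨_, rfl⟩
  have hX' : X = ((bx ((Fin k × Mono (r + 4) s) × Fin d) B).card : ℝ) := hX
  rw [← hX'] at h1 h2
  have hX0' : 0 ≤ X := by rw [hX]; exact Nat.cast_nonneg _
  rw [← hX]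
  have hsub : ((box (r + 4) k s d B).filter fun a => ∃ T : ℕ, B < T ^ 2 ∧
        s ^ m * T ^ 2 < (8 * B) ^ m ∧ (T : ℝ) ^ (-κ) <
          |average w T h (form g (coord b a)) - expectAverage w T h g|) ⊆
      ((bx ((Fin k × Mono (r + 4) s) × Fin d) B).filter fun a => ∃ T : ℕ, B < T ^ 2 ∧ T ≤ K ∧
        (T : ℝ) ^ (1 / 2 + ω) < |∑ p ∈ PR T, Real.log p * tt w b h g p a|) := by
    intro a ha
    obtain ⟨ha1, T, h4, h5, h6⟩ := Finset.mem_filter.1 ha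
    refine Finset.mem_filter.2 ⟨ha1, T, h4, hK2 T h5, ?_⟩
    have hTp : (0 : ℝ) < T := by
      have : 0 < T := by
        rcases Nat.eq_zero_or_pos T with h0 | h0
        · rw [h0] at h4; simp at h4
        · exact h0
      exact_mod_cast this
    rw [average_sub, abs_div, abs_of_pos hTp, lt_div_iff₀ hTp] at h6
    have h7 : (T : ℝ) ^ (1 / 2 + ω) = (T : ℝ) ^ (-κ) * T := by
      conv_rhs => rw [← Real.rpow_one (T : ℝ)]
      rw [← Real.rpow_mul hTp.le, ← Real.rpow_add hTp, hω]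
      congr 1
      ring
    rw [h7]
    exact h6
  refine (Nat.cast_le.2 (Finset.card_le_card hsub)).trans (h1.trans ?_)
  have h3 : cz / B * X ≤ cz * (B : ℝ) ^ (-(ω / 4)) * X := by
    apply mul_le_mul_of_nonneg_right _ hX0'
    rw [div_eq_mul_inv, ← Real.rpow_neg_one]
    apply mul_le_mul_of_nonneg_left _ hcz0
    exact Real.rpow_le_rpow_of_exponent_le hBR (by linarith)
  have h4 : (cz + cl) * (B : ℝ) ^ (-(ω / 4)) * X =
      cz * (B : ℝ) ^ (-(ω / 4)) * X + cl * (B : ℝ) ^ (-(ω / 4)) * X := by ring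
  rw [h4]
  exact add_le_add (h2.trans h3) le_rfl

open Classical in
/-- All long ranges at once with a power saving. -/
theorem long_all [IsDomain R] (b : Module.Basis (Fin d) ℤ R)
    {h : Fin c → MvPolynomial (Fin (r + 4)) R}
    {g : Fin k → MvPolynomial (Fin (r + 4)) R} {δ : Fin c → ℕ}
    (hh : ∀ i, (h i).IsHomogeneous (δ i)) {e : ℕ} (hg : ∀ i, (g i).IsHomogeneous e)
    (hs : 1 ≤ s) {C₀ : ℝ} (hC : 0 ≤ C₀)
    (hW : ∀ p : ℕ, p.Prime → ∀ φ : R →+* ZMod p,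
      |points φ (Set.range h) - (p : ℝ) ^ 3| ≤ C₀ * (p : ℝ) ^ 2)
    (hZ : ∀ p : ℕ, p.Prime → ∀ φ : R →+* ZMod p,
      points φ (Set.range h ∪ Set.range g) ≤ C₀ * p)
    {ψ : R →+* ℂ} (hψ : Function.Injective ψ)
    {a₀ : Fin k × Mono (r + 4) s → R} (hS : SmoothSection ψ h (form g a₀))
    {κ : ℝ} (hκ0 : 0 ≤ κ) (hκ : κ < 1 / 2) :
    ∃ C B₀ : ℝ, 0 ≤ C ∧ ∀ w : ∀ p : ℕ, (R →+* ZMod p) → ℝ, (∀ p φ, |w p φ| ≤ 1) →
      ∀ B : ℕ, B₀ ≤ B →
      (((box (r + 4) k s d B).filter fun a => ∃ T : ℕ, B < T ^ 2 ∧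
        LongRange r s B T ∧ (T : ℝ) ^ (-κ) <
          |average w T h (form g (coord b a)) - expectAverage w T h g|).card : ℝ) ≤
        C * (B : ℝ) ^ (-((1 / 2 - κ) / 4)) * (box (r + 4) k s d B).card := by
  obtain ⟨ω, hω⟩ : ∃ ω, ω = 1 / 2 - κ := ⟨_, rfl⟩
  have key : ∀ m : ℕ, ∃ C B₀ : ℝ, 0 ≤ C ∧ 0 ≤ B₀ ∧ (2 ≤ m → m < s →
      (∀ j : ℕ, 0 < j → j < m → 2 * (r + 3) * ((m - j) * (j + 1)) ≤
        (m + 2) * (s + 1 - 2 * j)) →
      ∀ w : ∀ p : ℕ, (R →+* ZMod p) → ℝ, (∀ p φ, |w p φ| ≤ 1) →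
      ∀ B : ℕ, B₀ ≤ B →
      (((box (r + 4) k s d B).filter fun a => ∃ T : ℕ, B < T ^ 2 ∧
        s ^ m * T ^ 2 < (8 * B) ^ m ∧ (T : ℝ) ^ (-κ) <
          |average w T h (form g (coord b a)) - expectAverage w T h g|).card : ℝ) ≤
        C * (B : ℝ) ^ (-((1 / 2 - κ) / 4)) * (box (r + 4) k s d B).card) := by
    intro m
    by_cases hadm : 2 ≤ m ∧ m < s ∧ (∀ j : ℕ, 0 < j → j < m →
      2 * (r + 3) * ((m - j) * (j + 1)) ≤ (m + 2) * (s + 1 - 2 * j))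
    · obtain ⟨h2, h3, h4⟩ := hadm
      obtain ⟨C₁, C₂, hE⟩ := Pool.Agent.LL.est2 (s := s) b h g hW (m := m) h2 h3
        fun j hj hj' => h4 j hj hj'
      obtain ⟨C, B₀, hC, hmain⟩ := long_of_pow (s := s) b hh hg hs hC hW hZ hψ hS hE hκ0 hκ
      exact ⟨C, max B₀ 0, hC, le_max_right _ _, fun _ _ _ w hw B hB =>
        hmain w hw B ((le_max_left _ _).trans hB)⟩
    · exact ⟨0, 0, le_rfl, le_rfl, fun h2 h3 h4 => absurd ⟨h2, h3, h4⟩ hadm⟩
  choose C B₀ hC0 hB₀ hkey using key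
  refine ⟨∑ m ∈ range s, C m, ∑ m ∈ range s, B₀ m, Finset.sum_nonneg fun m _ => hC0 m,
    fun w hw B hB => ?_⟩
  obtain ⟨P, hP⟩ : ∃ P : ℕ → Prop, P = fun m => (2 ≤ m ∧ m < s ∧
    (∀ j : ℕ, 0 < j → j < m → 2 * (r + 3) * ((m - j) * (j + 1)) ≤
        (m + 2) * (s + 1 - 2 * j))) := ⟨_, rfl⟩
  obtain ⟨F, hF⟩ : ∃ F : ℕ → Finset ((Fin k × Mono (r + 4) s) × Fin d → ℤ),
      F = fun m => (box (r + 4) k s d B).filter fun a => P m ∧ ∃ T : ℕ, B < T ^ 2 ∧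
        s ^ m * T ^ 2 < (8 * B) ^ m ∧ (T : ℝ) ^ (-κ) <
          |average w T h (form g (coord b a)) - expectAverage w T h g| := ⟨_, rfl⟩
  have hFm : ∀ m ∈ range s, ((F m).card : ℝ) ≤
      C m * (B : ℝ) ^ (-((1 / 2 - κ) / 4)) * (box (r + 4) k s d B).card := by
    intro m hm
    by_cases hPm : P m
    · have hPm' := hPm
      rw [hP] at hPm'
      obtain ⟨h2, h3, h4⟩ := hPm'
      have h6 := hkey m h2 h3 h4 w hw B
        ((Finset.single_le_sum (f := B₀) (fun m _ => hB₀ m) hm).trans hB)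
      refine le_trans ?_ h6
      rw [hF]
      have : (box (r + 4) k s d B).filter (fun a => P m ∧ ∃ T : ℕ, B < T ^ 2 ∧
        s ^ m * T ^ 2 < (8 * B) ^ m ∧ (T : ℝ) ^ (-κ) <
          |average w T h (form g (coord b a)) - expectAverage w T h g|) ⊆
          (box (r + 4) k s d B).filter (fun a => ∃ T : ℕ, B < T ^ 2 ∧
        s ^ m * T ^ 2 < (8 * B) ^ m ∧ (T : ℝ) ^ (-κ) <
          |average w T h (form g (coord b a)) - expectAverage w T h g|) :=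
        Finset.monotone_filter_right _ fun a _ ha => ha.2
      exact_mod_cast Finset.card_le_card this
    · have : F m = ∅ := by
        rw [hF]
        apply Finset.filter_false_of_mem
        intro a _ ha
        exact hPm ha.1
      rw [this, Finset.card_empty, Nat.cast_zero]
      have := hC0 m
      positivity
  have hsub : ((box (r + 4) k s d B).filter fun a => ∃ T : ℕ, B < T ^ 2 ∧
        LongRange r s B T ∧ (T : ℝ) ^ (-κ) <
          |average w T h (form g (coord b a)) - expectAverage w T h g|) ⊆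
        (range s).biUnion F := by
    intro a ha
    obtain ⟨ha1, T, h3, ⟨m, h8, h9, h10, h11⟩, h5⟩ := Finset.mem_filter.1 ha
    rw [Finset.mem_biUnion]
    refine ⟨m, Finset.mem_range.2 h9, ?_⟩
    rw [hF]
    refine Finset.mem_filter.2 ⟨ha1, ?_, T, h3, h11, h5⟩
    rw [hP]
    exact ⟨h8, h9, h10⟩
  have h2 : (((range s).biUnion F).card : ℝ) ≤
      ∑ m ∈ range s, C m * (B : ℝ) ^ (-((1 / 2 - κ) / 4)) * (box (r + 4) k s d B).card := by
    refine le_trans ?_ (Finset.sum_le_sum hFm)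
    exact_mod_cast Finset.card_biUnion_le
  refine (Nat.cast_le.2 (Finset.card_le_card hsub)).trans (h2.trans (le_of_eq ?_))
  rw [← Finset.sum_mul, ← Finset.sum_mul]

end Long

end Pool.Agent.Helper29.LP
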